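import Pool.Agent.Lib.Helper71.TL.Defs

/-! Actions of words by partial injections, given as relations. -/

namespace H71TL

variable {α P : Type}

/-- the relation on `P` by which a word acts, given the relations by which the letters act -/
def actR (step : α → P → P → Prop) : Word α → P → P → Prop
  | [], p, q => p = q
  | (a, true) :: w, p, q => ∃ p', step a p p' ∧ actR step w p' q
  | (a, false) :: w, p, q => ∃ p', step a p' p ∧ actR step w p' q

theorem actR_append {step : α → P → P → Prop} (u v : Word α) (p q : P) :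
    actR step (u ++ v) p q ↔ ∃ m, actR step u p m ∧ actR step v m q := by
  induction u generalizing p with
  | nil => simp [actR]
  | cons a u ih =>
    obtain ⟨a, b⟩ := a
    cases b
    · simp only [List.cons_append, actR, ih]
      constructor
      · rintro ⟨p', h1, m, h2, h3⟩; exact ⟨m, ⟨p', h1, h2⟩, h3⟩
      · rintro ⟨m, ⟨p', h1, h2⟩, h3⟩; exact ⟨p', h1, m, h2, h3⟩
    · simp only [List.cons_append, actR, ih]
      constructor
      · rintro ⟨p', h1, m, h2, h3⟩; exact ⟨m, ⟨p', h1, h2⟩, h3⟩
      · rintro ⟨m, ⟨p', h1, h2⟩, h3⟩; exact ⟨p', h1, m, h2, h3⟩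

theorem actR_winv {step : α → P → P → Prop} (u : Word α) (p q : P) :
    actR step (winv u) p q ↔ actR step u q p := by
  induction u generalizing q with
  | nil => simp [actR, winv_nil, eq_comm]
  | cons a u ih =>
    obtain ⟨a, b⟩ := a
    rw [winv_cons, actR_append]
    cases b
    · simp only [actR, ih, Bool.not_false]
      constructor
      · rintro ⟨m, h1, p', h2, rfl⟩; exact ⟨m, h2, h1⟩
      · rintro ⟨m, h1, h2⟩; exact ⟨m, h2, _, h1, rfl⟩
    · simp only [actR, ih, Bool.not_true]
      constructor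
      · rintro ⟨m, h1, p', h2, rfl⟩; exact ⟨m, h2, h1⟩
      · rintro ⟨m, h1, h2⟩; exact ⟨m, h2, _, h1, rfl⟩

/-- all letters act by partial injections -/
structure IsPI (step : α → P → P → Prop) : Prop where
  right : ∀ a p q q', step a p q → step a p q' → q = q'
  left : ∀ a p p' q, step a p q → step a p' q → p = p'

theorem IsPI.right_word {step : α → P → P → Prop} (h : IsPI step) (u : Word α) :
    ∀ p q q', actR step u p q → actR step u p q' → q = q' := by
  induction u with
  | nil => rintro p q q' h1 h2; simp only [actR] at h1 h2; rw [← h1, ← h2]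
  | cons a u ih =>
    rintro p q q' h1 h2
    obtain ⟨a, b⟩ := a
    cases b
    · obtain ⟨m, hm, hm'⟩ := h1
      obtain ⟨m2, hm2, hm2'⟩ := h2
      obtain rfl := h.left a _ _ _ hm hm2
      exact ih _ _ _ hm' hm2'
    · obtain ⟨m, hm, hm'⟩ := h1
      obtain ⟨m2, hm2, hm2'⟩ := h2
      obtain rfl := h.right a _ _ _ hm hm2
      exact ih _ _ _ hm' hm2'

theorem IsPI.left_word {step : α → P → P → Prop} (h : IsPI step) (u : Word α) (p p' q : P)
    (h1 : actR step u p q) (h2 : actR step u p' q) : p = p' :=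
  h.right_word (winv u) q p p' ((actR_winv _ _ _).2 h1) ((actR_winv _ _ _).2 h2)

theorem actR_idem {step : α → P → P → Prop} (h : IsPI step) (u : Word α) (p q : P) :
    actR step (u ++ winv u) p q ↔ p = q ∧ ∃ m, actR step u p m := by
  rw [actR_append]
  constructor
  · rintro ⟨m, h1, h2⟩
    rw [actR_winv] at h2
    exact ⟨h.left_word u _ _ _ h1 h2, m, h1⟩
  · rintro ⟨rfl, m, h1⟩
    exact ⟨m, h1, (actR_winv _ _ _).2 h1⟩

theorem act_of_eqv {step : α → P → P → Prop} (h : IsPI step) {R : List (Word α × Word α)}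
    (hR : ∀ l r, (l, r) ∈ R → ∀ p q, actR step l p q ↔ actR step r p q)
    {u v : Word α} (huv : Eqv R u v) : ∀ p q, actR step u p q ↔ actR step v p q := by
  induction huv with
  | refl u => intro p q; rfl
  | symm _ ih => intro p q; exact (ih p q).symm
  | trans _ _ ih1 ih2 => intro p q; exact (ih1 p q).trans (ih2 p q)
  | mul _ _ ih1 ih2 =>
    intro p q
    simp only [actR_append, ih1, ih2]
  | inv _ ih => intro p q; rw [actR_winv, actR_winv, ih]
  | wagner₁ u =>
    intro p q
    rw [actR_append]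
    constructor
    · rintro ⟨m, h1, h2⟩
      obtain ⟨rfl, -⟩ := (actR_idem h u _ _).1 h1
      exact h2
    · intro h1
      exact ⟨p, (actR_idem h u _ _).2 ⟨rfl, q, h1⟩, h1⟩
  | wagner₂ u v =>
    intro p q
    rw [actR_append, actR_append]
    constructor
    · rintro ⟨m, h1, h2⟩
      obtain ⟨rfl, h3⟩ := (actR_idem h u _ _).1 h1
      obtain ⟨rfl, h4⟩ := (actR_idem h v _ _).1 h2
      exact ⟨p, (actR_idem h v _ _).2 ⟨rfl, h4⟩, (actR_idem h u _ _).2 ⟨rfl, h3⟩⟩
    · rintro ⟨m, h1, h2⟩
      obtain ⟨rfl, h3⟩ := (actR_idem h v _ _).1 h1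
      obtain ⟨rfl, h4⟩ := (actR_idem h u _ _).1 h2
      exact ⟨p, (actR_idem h u _ _).2 ⟨rfl, h4⟩, (actR_idem h v _ _).2 ⟨rfl, h3⟩⟩
  | rel h1 => exact hR _ _ h1

end H71TL
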