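import Mathlib

/-!
Inverse monoids given by finite presentations, their Schützenberger graphs, tree-like inverse
monoids and the membership problems of MP_56939f_al.
-/

namespace H71TL

/-- Words over `A ∪ A⁻¹`; the letter `(a, true)` stands for `a`, the letter `(a, false)` for `a⁻¹`. -/
abbrev Word (α : Type) := List (α × Bool)

/-- The formal inverse of a word. -/
def winv {α : Type} (w : Word α) : Word α := (w.map fun p => (p.1, !p.2)).reverse

/-- An inverse monoid: a monoid in which every element `a` has a unique inverse `a⁻¹`, i.e. a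
unique `b` with `a b a = a` and `b a b = b`. -/
class InverseMonoid (M : Type) extends Monoid M, Inv M where
  mul_inv_mul : ∀ a : M, a * a⁻¹ * a = a
  inv_mul_inv : ∀ a : M, a⁻¹ * a * a⁻¹ = a⁻¹
  inv_unique : ∀ a b : M, a * b * a = a → b * a * b = b → b = a⁻¹

/-- The congruence on words over `A ∪ A⁻¹` defining the inverse monoid presented by the
relations `R`: the smallest congruence compatible with formal inversion which contains the
Wagner relations and the relations `R`. -/
inductive Eqv {α : Type} (R : List (Word α × Word α)) : Word α → Word α → Prop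
  | refl (u : Word α) : Eqv R u u
  | symm {u v : Word α} : Eqv R u v → Eqv R v u
  | trans {u v w : Word α} : Eqv R u v → Eqv R v w → Eqv R u w
  | mul {u u' v v' : Word α} : Eqv R u u' → Eqv R v v' → Eqv R (u ++ v) (u' ++ v')
  | inv {u v : Word α} : Eqv R u v → Eqv R (winv u) (winv v)
  | wagner₁ (u : Word α) : Eqv R (u ++ winv u ++ u) u
  | wagner₂ (u v : Word α) :
      Eqv R ((u ++ winv u) ++ (v ++ winv v)) ((v ++ winv v) ++ (u ++ winv u))
  | rel {u v : Word α} : (u, v) ∈ R → Eqv R u v

/-- The setoid of `Eqv`. -/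
def eqvSetoid {α : Type} (R : List (Word α × Word α)) : Setoid (Word α) :=
  ⟨Eqv R, ⟨Eqv.refl, Eqv.symm, Eqv.trans⟩⟩

/-- The inverse monoid `Inv⟨A | R⟩`. -/
def InvMon {α : Type} (R : List (Word α × Word α)) : Type := Quotient (eqvSetoid R)

namespace InvMon

variable {α : Type} {R : List (Word α × Word α)}

/-- The element of `Inv⟨A | R⟩` represented by a word. -/
def mk (R : List (Word α × Word α)) (w : Word α) : InvMon R := Quotient.mk (eqvSetoid R) w

theorem mk_eq {u v : Word α} : mk R u = mk R v ↔ Eqv R u v :=
  ⟨fun h => Quotient.exact h, fun h => Quotient.sound h⟩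

theorem ind {p : InvMon R → Prop} (h : ∀ w, p (mk R w)) (m : InvMon R) : p m :=
  Quotient.ind h m

instance : Mul (InvMon R) :=
  ⟨Quotient.map₂ (fun u v => u ++ v) fun _ _ h₁ _ _ h₂ => Eqv.mul h₁ h₂⟩

instance : One (InvMon R) := ⟨mk R []⟩

instance : Inv (InvMon R) := ⟨Quotient.map winv fun _ _ h => Eqv.inv h⟩

theorem mk_mul (u v : Word α) : mk R u * mk R v = mk R (u ++ v) := rfl

theorem mk_inv (u : Word α) : (mk R u)⁻¹ = mk R (winv u) := rfl

theorem mk_one : mk R [] = 1 := rfl

instance : Monoid (InvMon R) where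
  mul_assoc a b c := by
    induction a using ind; induction b using ind; induction c using ind
    simp [mk_mul]
  one_mul a := by
    induction a using ind; rw [← mk_one, mk_mul]; rfl
  mul_one a := by
    induction a using ind; rw [← mk_one, mk_mul]; simp

end InvMon

theorem winv_winv {α : Type} (w : Word α) : winv (winv w) = w := by
  simp [winv, Function.comp_def]

theorem winv_append {α : Type} (u v : Word α) : winv (u ++ v) = winv v ++ winv u := by
  simp [winv]

theorem winv_nil {α : Type} : winv ([] : Word α) = [] := rfl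

theorem winv_cons {α : Type} (a : α × Bool) (v : Word α) :
    winv (a :: v) = winv v ++ [(a.1, !a.2)] := by
  simp [winv]

namespace InvMon

variable {α : Type} {R : List (Word α × Word α)}

theorem inv_inv' (a : InvMon R) : a⁻¹⁻¹ = a := by
  induction a using ind; simp [mk_inv, winv_winv]

theorem mul_inv_rev' (a b : InvMon R) : (a * b)⁻¹ = b⁻¹ * a⁻¹ := by
  induction a using ind; induction b using ind; simp [mk_inv, mk_mul, winv_append]

theorem mul_inv_mul' (a : InvMon R) : a * a⁻¹ * a = a := by
  induction a using ind; exact mk_eq.2 (Eqv.wagner₁ _)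

theorem inv_mul_inv' (a : InvMon R) : a⁻¹ * a * a⁻¹ = a⁻¹ := by
  have := mul_inv_mul' a⁻¹
  rwa [inv_inv'] at this

theorem comm' (a b : InvMon R) : (a * a⁻¹) * (b * b⁻¹) = (b * b⁻¹) * (a * a⁻¹) := by
  induction a using ind; induction b using ind; exact mk_eq.2 (Eqv.wagner₂ _ _)

theorem idem_inv {e : InvMon R} (he : e * e = e) : e⁻¹ = e := by
  have h1 : e⁻¹ * e⁻¹ = e⁻¹ := by rw [← mul_inv_rev', he]
  have h2 : e * e⁻¹ * (e⁻¹ * e) = e⁻¹ * e * (e * e⁻¹) := by
    have := comm' e e⁻¹
    rwa [inv_inv'] at this
  calc e⁻¹ = e⁻¹ * e * e⁻¹ := (inv_mul_inv' e).symm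
    _ = e⁻¹ * (e * e) * e⁻¹ := by rw [he]
    _ = e⁻¹ * e * (e * e⁻¹) := by simp only [mul_assoc]
    _ = e * e⁻¹ * (e⁻¹ * e) := h2.symm
    _ = e * (e⁻¹ * e⁻¹) * e := by simp only [mul_assoc]
    _ = e * e⁻¹ * e := by rw [h1]
    _ = e := mul_inv_mul' e

theorem idem_comm {e f : InvMon R} (he : e * e = e) (hf : f * f = f) : e * f = f * e := by
  have := comm' e f
  rwa [idem_inv he, idem_inv hf, he, hf] at this

instance : InverseMonoid (InvMon R) where
  mul_inv_mul := mul_inv_mul'
  inv_mul_inv := inv_mul_inv'
  inv_unique a b h1 h2 := by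
    have e1 : (a * b) * (a * b) = a * b := by
      rw [← mul_assoc, h1]
    have e2 : (a * a⁻¹) * (a * a⁻¹) = a * a⁻¹ := by
      rw [← mul_assoc, mul_inv_mul']
    have e3 : (b * a) * (b * a) = b * a := by
      rw [← mul_assoc, h2]
    have e4 : (a⁻¹ * a) * (a⁻¹ * a) = a⁻¹ * a := by
      rw [← mul_assoc, inv_mul_inv']
    have k1 : a * b = a * a⁻¹ := by
      calc a * b = (a * a⁻¹ * a) * b := by rw [mul_inv_mul']
        _ = (a * a⁻¹) * (a * b) := by simp only [mul_assoc]
        _ = (a * b) * (a * a⁻¹) := idem_comm e2 e1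
        _ = (a * b * a) * a⁻¹ := by simp only [mul_assoc]
        _ = a * a⁻¹ := by rw [h1]
    have k2 : b * a = a⁻¹ * a := by
      calc b * a = b * (a * a⁻¹ * a) := by rw [mul_inv_mul']
        _ = (b * a) * (a⁻¹ * a) := by simp only [mul_assoc]
        _ = (a⁻¹ * a) * (b * a) := idem_comm e3 e4
        _ = a⁻¹ * (a * b * a) := by simp only [mul_assoc]
        _ = a⁻¹ * a := by rw [h1]
    calc b = b * a * b := h2.symm
      _ = a⁻¹ * a * b := by rw [k2]
      _ = a⁻¹ * (a * b) := by rw [mul_assoc]
      _ = a⁻¹ * (a * a⁻¹) := by rw [k1]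
      _ = a⁻¹ * a * a⁻¹ := by rw [mul_assoc]
      _ = a⁻¹ := inv_mul_inv' a

end InvMon

section General

variable {M : Type} [InverseMonoid M] {n : ℕ}

/-- The element of `M` represented by a letter of `A ∪ A⁻¹`, for `A = gen`. -/
def letterEval (gen : Fin n → M) (a : Fin n × Bool) : M :=
  if a.2 then gen a.1 else (gen a.1)⁻¹

/-- The element of `M` represented by a word over `A ∪ A⁻¹`. -/
def wordEval (gen : Fin n → M) (w : Word (Fin n)) : M := (w.map (letterEval gen)).prod

/-- `t` can be reached from `s` by a directed path of the right Cayley graph of `M`. -/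
def Reach (gen : Fin n → M) (s t : M) : Prop := ∃ w : Word (Fin n), s * wordEval gen w = t

/-- The vertex set of the strongly connected component of `s` in the right Cayley graph. -/
def schutzVert (gen : Fin n → M) (s : M) : Set M := {t | Reach gen s t ∧ Reach gen t s}

/-- The Schützenberger graph of `s`, as an undirected graph: distinct vertices `x, y` of the
strongly connected component of `s` are adjacent iff there is an edge of the Cayley graph between
them. `SimpleGraph.dist` of this graph is the path metric. -/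
def schutzGraph (gen : Fin n → M) (s : M) : SimpleGraph (schutzVert gen s) :=
  SimpleGraph.fromRel fun x y => ∃ a : Fin n × Bool, (x : M) * letterEval gen a = y

/-- Quasi-isometry of two (connected) graphs with their path metrics. -/
def QuasiIsometric {V W : Type} (G : SimpleGraph V) (H : SimpleGraph W) : Prop :=
  ∃ (f : V → W) (K : ℕ),
    (∀ x y, H.dist (f x) (f y) ≤ K * G.dist x y + K) ∧
    (∀ x y, G.dist x y ≤ K * H.dist (f x) (f y) + K) ∧
    (∀ w, ∃ x, H.dist w (f x) ≤ K)

/-- An inverse monoid with a finite generating tuple `gen` is tree-like if every Schützenberger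
graph is quasi-isometric to a tree. -/
def TreeLike (gen : Fin n → M) : Prop :=
  (∀ m : M, ∃ w, wordEval gen w = m) ∧
  ∀ s : M, ∃ (V : Type) (T : SimpleGraph V), T.IsTree ∧ QuasiIsometric (schutzGraph gen s) T

/-- The natural partial order of an inverse monoid. -/
def natLE (s t : M) : Prop := ∃ e : M, e * e = e ∧ s = e * t

/-- Finite automata over `A ∪ A⁻¹` with states in `ℕ`: the list of initial states, the list of
transitions and the list of final states. -/
abbrev Automaton (n : ℕ) := List ℕ × List (ℕ × (Fin n × Bool) × ℕ) × List ℕ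

/-- `Run Δ p w q`: the transitions `Δ` allow to read `w` from state `p` to state `q`. -/
inductive Run (Δ : List (ℕ × (Fin n × Bool) × ℕ)) : ℕ → Word (Fin n) → ℕ → Prop
  | nil (p : ℕ) : Run Δ p [] p
  | cons {p q r : ℕ} {a : Fin n × Bool} {w : Word (Fin n)} :
      (p, a, q) ∈ Δ → Run Δ q w r → Run Δ p (a :: w) r

/-- Acceptance of a word by a finite automaton. -/
def Accepts (𝒜 : Automaton n) (w : Word (Fin n)) : Prop :=
  ∃ p ∈ 𝒜.1, ∃ q ∈ 𝒜.2.2, Run 𝒜.2.1 p w q

/-- Rational subset membership: does `w` represent an element of the image of `L(𝒜)`? -/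
def RationalSubsetMembership (gen : Fin n → M) : Automaton n × Word (Fin n) → Prop :=
  fun i => ∃ u, Accepts i.1 u ∧ wordEval gen u = wordEval gen i.2

/-- Submonoid membership: does `w` represent an element of the submonoid generated by `X`? -/
def SubmonoidMembership (gen : Fin n → M) : List (Word (Fin n)) × Word (Fin n) → Prop :=
  fun i => wordEval gen i.2 ∈ Submonoid.closure {m : M | ∃ x ∈ i.1, wordEval gen x = m}

/-- Inverse submonoid membership: does `w` represent an element of the inverse submonoid
generated by `X` (the intersection of all inverse submonoids containing `X`)? -/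
def InverseSubmonoidMembership (gen : Fin n → M) : List (Word (Fin n)) × Word (Fin n) → Prop :=
  fun i => ∀ H : Submonoid M, (∀ h ∈ H, h⁻¹ ∈ H) → (∀ x ∈ i.1, wordEval gen x ∈ H) →
    wordEval gen i.2 ∈ H

/-- Closed inverse submonoid membership: does `w` represent an element of the smallest closed
inverse submonoid containing `X`? -/
def ClosedInverseSubmonoidMembership (gen : Fin n → M) :
    List (Word (Fin n)) × Word (Fin n) → Prop :=
  fun i => ∀ H : Submonoid M, (∀ h ∈ H, h⁻¹ ∈ H) → (∀ h ∈ H, ∀ m, natLE h m → m ∈ H) →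
    (∀ x ∈ i.1, wordEval gen x ∈ H) → wordEval gen i.2 ∈ H

end General

/-- The canonical generators of `Inv⟨A | R⟩`. -/
def InvMon.gen {α : Type} (R : List (Word α × Word α)) (a : α) : InvMon R :=
  InvMon.mk R [(a, true)]

theorem wordEval_gen {n : ℕ} (R : List (Word (Fin n) × Word (Fin n))) (w : Word (Fin n)) :
    wordEval (InvMon.gen R) w = InvMon.mk R w := by
  induction w with
  | nil => rfl
  | cons a w ih =>
    have : wordEval (InvMon.gen R) (a :: w)
        = letterEval (InvMon.gen R) a * wordEval (InvMon.gen R) w := by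
      simp [wordEval]
    rw [this, ih]
    obtain ⟨a, b⟩ := a
    cases b
    · rfl
    · rfl

end H71TL
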