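import Pool.Agent.Lib.Helper71.TL.Act

/-! Inverse monoids with zero presented by weight-homogeneous positive relations have finite
Schützenberger graphs. -/

namespace H71TL

open InvMon

variable {α : Type}

/-- a positive word -/
def pos (u : List α) : Word α := u.map fun a => (a, true)

theorem pos_nil : pos ([] : List α) = [] := rfl

theorem pos_cons (a : α) (u : List α) : pos (a :: u) = (a, true) :: pos u := rfl

theorem pos_append (u v : List α) : pos (u ++ v) = pos u ++ pos v := by simp [pos]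

/-- weight of a positive word -/
def wtP (wt : α → ℕ) (u : List α) : ℕ := (u.map wt).sum

theorem wtP_nil (wt : α → ℕ) : wtP wt [] = 0 := rfl

theorem wtP_cons (wt : α → ℕ) (a : α) (u : List α) : wtP wt (a :: u) = wt a + wtP wt u := by
  simp [wtP]

theorem wtP_append (wt : α → ℕ) (u v : List α) : wtP wt (u ++ v) = wtP wt u + wtP wt v := by
  simp [wtP]

theorem length_le_wtP (wt : α → ℕ) (h1 : ∀ a, 1 ≤ wt a) (u : List α) : u.length ≤ wtP wt u := by
  induction u with
  | nil => simp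
  | cons a u ih => rw [wtP_cons, List.length_cons]; have := h1 a; omega

/-- weight of a word -/
def wtW (wt : α → ℕ) (u : Word α) : ℤ :=
  (u.map fun a => if a.2 then (wt a.1 : ℤ) else -(wt a.1 : ℤ)).sum

theorem wtW_nil (wt : α → ℕ) : wtW wt [] = 0 := rfl

theorem wtW_append (wt : α → ℕ) (u v : Word α) : wtW wt (u ++ v) = wtW wt u + wtW wt v := by
  simp [wtW]

theorem wtW_single (wt : α → ℕ) (a : α × Bool) :
    wtW wt [a] = if a.2 then (wt a.1 : ℤ) else -(wt a.1 : ℤ) := by
  simp [wtW]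

theorem wtW_abs (wt : α → ℕ) (u : Word α) :
    |wtW wt u| ≤ ((u.map fun a => wt a.1).sum : ℕ) := by
  induction u with
  | nil => simp [wtW]
  | cons a u ih =>
    have : wtW wt (a :: u) = (if a.2 then (wt a.1 : ℤ) else -(wt a.1 : ℤ)) + wtW wt u := by
      simp [wtW]
    rw [this, List.map_cons, List.sum_cons]
    refine (abs_add_le _ _).trans ?_
    rw [Nat.cast_add]
    have : |(if a.2 then (wt a.1 : ℤ) else -(wt a.1 : ℤ))| = (wt a.1 : ℤ) := by
      split_ifs <;> simp
    rw [this]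
    linarith [ih]

section

variable {R : List (Word α × Word α)}

/-- the element of the zero letter -/
theorem zero_absorbs {z : α}
    (hl : ∀ a, mk R [(z, true)] * mk R [(a, true)] = mk R [(z, true)])
    (hr : ∀ a, mk R [(a, true)] * mk R [(z, true)] = mk R [(z, true)]) (m : InvMon R) :
    mk R [(z, true)] * m = mk R [(z, true)] ∧ m * mk R [(z, true)] = mk R [(z, true)] := by
  have hz : (mk R [(z, true)])⁻¹ = mk R [(z, true)] := idem_inv (hl z)
  have hinv : ∀ a, (mk R [(a, true)])⁻¹ = mk R [(a, false)] := fun a => rfl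
  have hl' : ∀ a, mk R [(z, true)] * mk R [(a, false)] = mk R [(z, true)] := by
    intro a
    have := congrArg (·⁻¹) (hr a)
    simpa only [mul_inv_rev', hz, hinv] using this
  have hr' : ∀ a, mk R [(a, false)] * mk R [(z, true)] = mk R [(z, true)] := by
    intro a
    have := congrArg (·⁻¹) (hl a)
    simpa only [mul_inv_rev', hz, hinv] using this
  induction m using InvMon.ind with
  | h w =>
    induction w with
    | nil => rw [mk_one]; simp
    | cons a w ih =>
      have : mk R (a :: w) = mk R [a] * mk R w := rfl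
      obtain ⟨a, b⟩ := a
      constructor
      · rw [this, ← mul_assoc]
        cases b
        · rw [hl', ih.1]
        · rw [hl, ih.1]
      · rw [this, mul_assoc, ih.2]
        cases b
        · exact hr' a
        · exact hr a

theorem between {e q a b c : InvMon R} (he : e * e = e) (hq : q = e * a) (hc : q * b = c)
    (hce : c * c⁻¹ = e) : q * q⁻¹ = e := by
  have h1 : (q * q⁻¹) * e = e := by
    rw [← hce, ← hc, mul_inv_rev']
    calc q * q⁻¹ * (q * b * (b⁻¹ * q⁻¹)) = (q * q⁻¹ * q) * b * (b⁻¹ * q⁻¹) := by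
          simp only [mul_assoc]
      _ = q * b * (b⁻¹ * q⁻¹) := by rw [mul_inv_mul']
  have h2 : e * (q * q⁻¹) = q * q⁻¹ := by
    rw [← mul_assoc]
    congr 1
    rw [hq, ← mul_assoc, he]
  have h3 : (q * q⁻¹) * (q * q⁻¹) = q * q⁻¹ := by rw [← mul_assoc, mul_inv_mul']
  rw [← h2, idem_comm he h3, h1]

theorem back {e q a : InvMon R} (h1 : q * q⁻¹ = e) (h2 : (q * a) * (q * a)⁻¹ = e) :
    q * a * a⁻¹ = q := by
  have e1 : (q⁻¹ * q) * (q⁻¹ * q) = q⁻¹ * q := by rw [← mul_assoc, inv_mul_inv']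
  have e2 : (a * a⁻¹) * (a * a⁻¹) = a * a⁻¹ := by rw [← mul_assoc, mul_inv_mul']
  calc q * a * a⁻¹ = (q * q⁻¹ * q) * a * a⁻¹ := by rw [mul_inv_mul']
    _ = q * ((q⁻¹ * q) * (a * a⁻¹)) := by simp only [mul_assoc]
    _ = q * ((a * a⁻¹) * (q⁻¹ * q)) := by rw [idem_comm e1 e2]
    _ = ((q * a) * (q * a)⁻¹) * q := by rw [mul_inv_rev']; simp only [mul_assoc]
    _ = q * q⁻¹ * q := by rw [h2, ← h1]
    _ = q := mul_inv_mul' q

/-- the points of the finite model of the Schützenberger graph of `w` -/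
def TSet (R : List (Word α × Word α)) (wt : α → ℕ) (w : Word α) : Set (InvMon R × ℤ) :=
  {x | ∃ p₀ s₀ p₁ s₁ : Word α, ∃ v v' : List α, w = p₀ ++ s₀ ∧ w = p₁ ++ s₁ ∧
    x.1 = mk R w * (mk R w)⁻¹ * mk R p₀ * mk R (pos v) ∧ x.2 = wtW wt p₀ + wtP wt v ∧
    x.1 * mk R (pos v') = mk R w * (mk R w)⁻¹ * mk R p₁ ∧ x.2 + wtP wt v' = wtW wt p₁}

/-- the steps of the finite model -/
def stepT (R : List (Word α × Word α)) (wt : α → ℕ) (w : Word α) (a : α)
    (x y : TSet R wt w) : Prop :=
  y.1.1 = x.1.1 * mk R [(a, true)] ∧ x.1.1 = y.1.1 * mk R [(a, false)] ∧ y.1.2 = x.1.2 + wt a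

theorem stepT_pi (R : List (Word α × Word α)) (wt : α → ℕ) (w : Word α) :
    IsPI (stepT R wt w) where
  right := by
    rintro a p q q' ⟨h1, h2, h3⟩ ⟨k1, k2, k3⟩
    apply Subtype.ext; apply Prod.ext
    · rw [h1, k1]
    · rw [h3, k3]
  left := by
    rintro a p q q' ⟨h1, h2, h3⟩ ⟨k1, k2, k3⟩
    apply Subtype.ext; apply Prod.ext
    · rw [h2, k2]
    · linarith

theorem rclass_prefix (w p s : Word α) (h : w = p ++ s) :
    (mk R w * (mk R w)⁻¹ * mk R p) * (mk R w * (mk R w)⁻¹ * mk R p)⁻¹ = mk R w * (mk R w)⁻¹ := by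
  have he : (mk R w * (mk R w)⁻¹) * (mk R w * (mk R w)⁻¹) = mk R w * (mk R w)⁻¹ := by
    rw [← mul_assoc, mul_inv_mul']
  refine between he rfl (b := mk R s) (c := mk R w) ?_ rfl
  rw [mul_assoc, mk_mul, ← h, mul_inv_mul']

theorem rclass_T {wt : α → ℕ} {w : Word α} {x : InvMon R × ℤ} (hx : x ∈ TSet R wt w) :
    x.1 * x.1⁻¹ = mk R w * (mk R w)⁻¹ := by
  obtain ⟨p₀, s₀, p₁, s₁, v, v', hw0, hw1, h1, h2, h3, h4⟩ := hx
  have he : (mk R w * (mk R w)⁻¹) * (mk R w * (mk R w)⁻¹) = mk R w * (mk R w)⁻¹ := by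
    rw [← mul_assoc, mul_inv_mul']
  refine between he (a := mk R p₀ * mk R (pos v)) ?_ h3 (rclass_prefix w p₁ s₁ hw1)
  rw [h1, mul_assoc]

theorem actR_pos_iff {wt : α → ℕ} {w : Word α} (u : List α) (x y : TSet R wt w) :
    actR (stepT R wt w) (pos u) x y ↔
      y.1.1 = x.1.1 * mk R (pos u) ∧ y.1.2 = x.1.2 + wtP wt u := by
  induction u generalizing x with
  | nil =>
    simp only [pos_nil, actR, mk_one, mul_one, wtP_nil, Nat.cast_zero, add_zero]
    constructor
    · rintro rfl; exact ⟨rfl, rfl⟩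
    · rintro ⟨h1, h2⟩; exact Subtype.ext (Prod.ext h1.symm h2.symm)
  | cons a u ih =>
    simp only [pos_cons, actR]
    constructor
    · rintro ⟨m, ⟨h1, h2, h3⟩, h4⟩
      obtain ⟨h5, h6⟩ := (ih m).1 h4
      refine ⟨?_, ?_⟩
      · rw [h5, h1, mul_assoc]; rfl
      · rw [h6, h3, wtP_cons]; push_cast; ring
    · rintro ⟨h1, h2⟩
      have hmem : (x.1.1 * mk R [(a, true)], x.1.2 + (wt a : ℤ)) ∈ TSet R wt w := by
        obtain ⟨p₀, s₀, _, _, v, _, hw0, _, k1, k2, _, _⟩ := x.2
        obtain ⟨_, _, p₁, s₁, _, v', _, hw1, _, _, k3, k4⟩ := y.2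
        refine ⟨p₀, s₀, p₁, s₁, v ++ [a], u ++ v', hw0, hw1, ?_, ?_, ?_, ?_⟩
        · rw [k1, mul_assoc, pos_append, mk_mul]; rfl
        · simp only [k2, wtP_append, wtP_cons, wtP_nil]; push_cast; ring
        · rw [← k3, h1, pos_append]
          simp only [mul_assoc, mk_mul]
          rfl
        · rw [← k4, h2, wtP_append, wtP_cons]; push_cast; ring
      refine ⟨⟨_, hmem⟩, ⟨rfl, ?_, rfl⟩, ?_⟩
      · have := back (rclass_T x.2) (rclass_T hmem)
        exact this.symm
      · rw [ih]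
        refine ⟨?_, ?_⟩
        · rw [h1, mul_assoc]; rfl
        · simp only [h2, wtP_cons]; push_cast; ring

theorem actR_word {wt : α → ℕ} {w : Word α} (u : Word α) (x y : TSet R wt w)
    (h : actR (stepT R wt w) u x y) : y.1.1 = x.1.1 * mk R u := by
  induction u generalizing x with
  | nil => obtain rfl := h; rw [mk_one, mul_one]
  | cons a u ih =>
    obtain ⟨a, b⟩ := a
    cases b
    · obtain ⟨m, ⟨h1, h2, h3⟩, h4⟩ := h
      rw [ih m h4, h2, mul_assoc]; rfl
    · obtain ⟨m, ⟨h1, h2, h3⟩, h4⟩ := h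
      rw [ih m h4, h1, mul_assoc]; rfl

theorem prefix_mem (wt : α → ℕ) (w p s : Word α) (h : w = p ++ s) :
    (mk R w * (mk R w)⁻¹ * mk R p, wtW wt p) ∈ TSet R wt w :=
  ⟨p, s, p, s, [], [], h, h, by simp [pos_nil, mk_one], by simp [wtP_nil],
    by simp [pos_nil, mk_one], by simp [wtP_nil]⟩

theorem actR_start (wt : α → ℕ) (w p : Word α) : ∀ s (h : w = p ++ s),
    actR (stepT R wt w) p ⟨_, prefix_mem wt w [] w rfl⟩ ⟨_, prefix_mem wt w p s h⟩ := by
  induction p using List.reverseRecOn with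
  | nil => intro s h; rfl
  | append_singleton p a ih =>
    intro s h
    have h' : w = p ++ (a :: s) := by rw [h]; simp
    rw [actR_append]
    refine ⟨_, ih _ h', ?_⟩
    have hb := back (a := mk R [a]) (rclass_prefix (R := R) w p (a :: s) h')
      (by
        have := rclass_prefix (R := R) w (p ++ [a]) s h
        rwa [← mk_mul, ← mul_assoc] at this)
    obtain ⟨a, b⟩ := a
    cases b
    · refine ⟨⟨_, prefix_mem wt w (p ++ [(a, false)]) s h⟩, ⟨?_, ?_, ?_⟩, rfl⟩
      · simp only [← mk_mul]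
        rw [← mul_assoc]
        exact hb.symm
      · simp only [← mk_mul]
        rw [← mul_assoc]
      · simp [wtW_append, wtW_single]
    · refine ⟨⟨_, prefix_mem wt w (p ++ [(a, true)]) s h⟩, ⟨?_, ?_, ?_⟩, rfl⟩
      · simp only [← mk_mul]
        rw [← mul_assoc]
      · simp only [← mk_mul]
        rw [← mul_assoc]
        exact hb.symm
      · simp [wtW_append, wtW_single]

theorem TSet_finite [Finite α] (wt : α → ℕ) (h1 : ∀ a, 1 ≤ wt a) (w : Word α) :
    (TSet R wt w).Finite := by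
  classical
  let B : ℕ := (w.map fun a => wt a.1).sum
  have hB : ∀ p s : Word α, w = p ++ s → |wtW wt p| ≤ (B : ℤ) := by
    intro p s h
    refine (wtW_abs wt p).trans ?_
    have : B = (p.map fun a => wt a.1).sum + (s.map fun a => wt a.1).sum := by
      simp [B, h]
    rw [this, Nat.cast_add]; omega
  have hfin : (({p : Word α | p ∈ w.inits} : Set (Word α)) ×ˢ
      {v : List α | v.length ≤ 2 * B}).Finite :=
    Set.Finite.prod (List.finite_toSet _) (List.finite_length_le α (2 * B))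
  refine (hfin.image fun x => (mk R w * (mk R w)⁻¹ * mk R x.1 * mk R (pos x.2),
    wtW wt x.1 + (wtP wt x.2 : ℤ))).subset ?_
  rintro ⟨q, k⟩ ⟨p₀, s₀, p₁, s₁, v, v', hw0, hw1, k1, k2, k3, k4⟩
  refine ⟨(p₀, v), ⟨?_, ?_⟩, ?_⟩
  · simp only [Set.mem_ofPred_eq, List.mem_inits]
    exact ⟨s₀, hw0.symm⟩
  · simp only [Set.mem_ofPred_eq]
    have e1 := hB p₀ s₀ hw0
    have e2 := hB p₁ s₁ hw1
    rw [abs_le] at e1 e2
    simp only at k2 k4
    have : (wtP wt v : ℤ) ≤ 2 * B := by
      have : (0 : ℤ) ≤ wtP wt v' := by positivity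
      linarith [e1.1, e2.2]
    have h3 := length_le_wtP wt h1 v
    omega
  · simp only at k1 k2 ⊢
    rw [k1, k2]

/-- **Finite `R`-classes.** -/
theorem rclass_finite [Finite α] (wt : α → ℕ) (h1 : ∀ a, 1 ≤ wt a) (z : α)
    (hl : ∀ a, mk R [(z, true)] * mk R [(a, true)] = mk R [(z, true)])
    (hr : ∀ a, mk R [(a, true)] * mk R [(z, true)] = mk R [(z, true)])
    (hR : ∀ l r, (l, r) ∈ R →
      (∃ u v : List α, l = pos u ∧ r = pos v ∧ wtP wt u = wtP wt v) ∨
      (mk R l = mk R [(z, true)] ∧ mk R r = mk R [(z, true)]))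
    (m : InvMon R) :
    {t : InvMon R | (∃ u, m * mk R u = t) ∧ ∃ u, t * mk R u = m}.Finite := by
  have hz := zero_absorbs hl hr
  induction m using InvMon.ind with
  | h w =>
    by_cases hw : mk R w = mk R [(z, true)]
    · refine (Set.finite_singleton (mk R [(z, true)])).subset ?_
      rintro t ⟨⟨u, hu⟩, -⟩
      rw [hw, (hz _).1] at hu
      exact hu.symm
    · refine ((TSet_finite (R := R) wt h1 w).image Prod.fst).subset ?_
      rintro t ⟨⟨u, hu⟩, ⟨u', hu'⟩⟩
      have hne : ∀ (l : Word α) (x y : TSet R wt w), mk R l = mk R [(z, true)] →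
          ¬ actR (stepT R wt w) l x y := by
        intro l x y hl' h
        have h2 := actR_word l x y h
        rw [hl', (hz _).2] at h2
        have h3 := rclass_T y.2
        rw [h2, (hz _).1] at h3
        apply hw
        rw [← mul_inv_mul' (mk R w), ← h3, (hz _).1]
      have key : ∀ l r : Word α, (l, r) ∈ R → ∀ x y : TSet R wt w,
          actR (stepT R wt w) l x y ↔ actR (stepT R wt w) r x y := by
        intro l r hlr x y
        rcases hR l r hlr with ⟨u, v, rfl, rfl, huv⟩ | ⟨ha, hb⟩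
        · rw [actR_pos_iff, actR_pos_iff, mk_eq.2 (Eqv.rel hlr), huv]
        · exact ⟨fun h => absurd h (hne l x y ha), fun h => absurd h (hne r x y hb)⟩
      have heq : Eqv R ((w ++ u) ++ u') w := by
        rw [← mk_eq, ← mk_mul, ← mk_mul, hu, hu']
      have hst := actR_start (R := R) wt w w [] (by simp)
      rw [← act_of_eqv (stepT_pi R wt w) key heq, actR_append] at hst
      obtain ⟨y, hy, -⟩ := hst
      refine ⟨y.1, y.2, ?_⟩
      have := actR_word _ _ _ hy
      rw [this, ← hu]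
      simp only [mk_one, mul_one, ← mk_mul]
      rw [← mul_assoc, mul_inv_mul']

end

end H71TL
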