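import Mathlib

/-! A Turing machine with finitely many states and symbols with undecidable halting problem. -/

namespace H71TL

open Turing

instance : Fintype PartrecToTM2.K' :=
  ⟨{.main, .rev, .aux, .stack}, by intro x; cases x <;> simp⟩

theorem restrict_tm0 {Γ Λ : Type} [Inhabited Γ] [Inhabited Λ] (M : TM0.Machine Γ Λ) (S : Set Λ)
    (hS : S.Finite) (ss : TM0.Supports M S) :
    ∃ (Λ' : Type) (_ : Finite Λ') (_ : Inhabited Λ') (M' : TM0.Machine Γ Λ'),
      ∀ l, (TM0.eval M' l).Dom ↔ (TM0.eval M l).Dom := by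
  classical
  let : Inhabited S := ⟨⟨default, ss.1⟩⟩
  let g₁ : PointedMap Λ S := ⟨fun q => if h : q ∈ S then ⟨q, h⟩ else ⟨default, ss.1⟩, by
    simp [ss.1]; rfl⟩
  let g₂ : S → Λ := Subtype.val
  let f₁ : PointedMap Γ Γ := ⟨id, rfl⟩
  have hresp := TM0.Machine.map_respects M f₁ f₁ g₁ g₂ ss (fun a => rfl) (by
    intro q hq; simp [g₁, g₂, hq])
  refine ⟨S, hS, inferInstance, M.map f₁ f₁ g₁ g₂, ?_⟩
  intro l
  have h0 : (TM0.init l : TM0.Cfg Γ Λ).q ∈ S ∧
      TM0.Cfg.map f₁ g₁ (TM0.init l) = TM0.init l := by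
    refine ⟨ss.1, ?_⟩
    have := TM0.map_init f₁ g₁ l
    rw [this]
    congr 1
    exact List.map_id l
  exact StateTransition.tr_eval_dom hresp h0

open PartrecToTM2 in
theorem exists_machine (c : ToPartrec.Code) :
    ∃ (Γ Λ : Type) (_ : Finite Γ) (_ : Finite Λ) (_ : Inhabited Γ) (_ : Inhabited Λ)
      (M : TM0.Machine Γ Λ) (c₀ : Γ) (G : PartrecToTM2.Γ' → Γ),
      ∀ m : ℕ, (TM0.eval M (c₀ :: (trNat m).reverse.map G)).Dom ↔ (c.eval [m]).Dom := by
  classical
  let iΛ : Inhabited PartrecToTM2.Λ' := ⟨trNormal c Cont'.halt⟩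
  have hs2 : TM2.Supports PartrecToTM2.tr (codeSupp c Cont'.halt) := tr_supports c Cont'.halt
  have hs1 := TM2to1.tr_supports PartrecToTM2.tr hs2
  have hs0 := TM1to0.tr_supports (TM2to1.tr PartrecToTM2.tr) hs1
  obtain ⟨Λ, i1, i2, M, hM⟩ := restrict_tm0 _ _ (Finset.finite_toSet _) hs0
  refine ⟨TM2to1.Γ' K' (fun _ => PartrecToTM2.Γ'), Λ, inferInstance, i1, inferInstance, i2, M,
    (true, Function.update (fun _ => none) K'.main (some PartrecToTM2.Γ'.cons)),
    fun a => (false, Function.update (fun _ => none) K'.main (some a)), ?_⟩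
  intro m
  rw [hM, TM1to0.tr_eval]
  have h1 : TM2to1.trInit K'.main (trList [m]) =
      ((true, Function.update (fun _ => none) K'.main (some PartrecToTM2.Γ'.cons)) ::
        (trNat m).reverse.map (fun a => (false, Function.update (fun _ => none) K'.main (some a))) :
        List (TM2to1.Γ' K' (fun _ => PartrecToTM2.Γ'))) := by
    simp [TM2to1.trInit, trList]
  rw [← h1]
  refine (TM2to1.tr_eval_dom (PartrecToTM2.tr : PartrecToTM2.Λ' →
    TM2.Stmt (fun _ : K' => PartrecToTM2.Γ') PartrecToTM2.Λ' (Option PartrecToTM2.Γ'))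
    K'.main (trList [m])).trans ?_
  have h2 : (TM2.init K'.main (trList [m]) : TM2.Cfg (fun _ : K' => PartrecToTM2.Γ')
      PartrecToTM2.Λ' (Option PartrecToTM2.Γ')) = PartrecToTM2.init c [m] := by
    unfold TM2.init PartrecToTM2.init
    congr 1
    funext k
    cases k <;> rfl
  unfold TM2.eval
  rw [h2]
  have h3 := PartrecToTM2.tr_eval c [m]
  change (StateTransition.eval (TM2.step PartrecToTM2.tr) (PartrecToTM2.init c [m])).Dom ↔ _
  rw [h3]
  rfl

/-- one step of the extraction of binary digits -/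
def digStep (x : ℕ × List Bool) : ℕ × List Bool :=
  if x.1 = 0 then x else (x.1.div2, x.1.bodd :: x.2)

/-- binary digits of `m`, most significant first -/
def digits (m : ℕ) : List Bool := (digStep^[m] (m, [])).2

theorem digits_primrec : Primrec digits := by
  have h : Primrec digStep := by
    unfold digStep
    refine Primrec.ite ?_ Primrec.id ?_
    · exact PrimrecRel.comp Primrec.eq Primrec.fst (Primrec.const 0)
    · refine Primrec.pair (Primrec.nat_div2.comp Primrec.fst) ?_
      exact Primrec.list_cons.comp (Primrec.nat_bodd.comp Primrec.fst) Primrec.snd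
  refine Primrec.snd.comp ?_
  exact Primrec.nat_iterate Primrec.id (Primrec.pair Primrec.id (Primrec.const []))
    (h.comp Primrec.snd).to₂

/-- the digit symbols -/
def dig (b : Bool) : PartrecToTM2.Γ' := if b then .bit1 else .bit0

theorem trNat_step (k : ℕ) (hk : k ≠ 0) :
    PartrecToTM2.trNat k = dig k.bodd :: PartrecToTM2.trNat k.div2 := by
  have h1 : ∀ (b : Bool) (n : ℕ), PartrecToTM2.trNat (Nat.bit b n)
      = PartrecToTM2.trNum (cond b Num.bit1 Num.bit0 (n : Num)) := by
    intro b n
    unfold PartrecToTM2.trNat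
    rw [← Num.ofNat'_eq, Num.ofNat'_bit, Num.ofNat'_eq]
  have h2 : ∀ (b : Bool) (x : Num), (b = false → x ≠ 0) →
      PartrecToTM2.trNum (cond b Num.bit1 Num.bit0 x) = dig b :: PartrecToTM2.trNum x := by
    intro b x h
    cases b
    · cases x
      · exact absurd rfl (h rfl)
      · rfl
    · cases x <;> rfl
  conv_lhs => rw [← Nat.bit_bodd_div2 k, h1]
  rw [h2]
  · rfl
  · intro hb h0
    apply hk
    have h3 : (k.div2 : Num) = ((0 : ℕ) : Num) := by rw [h0]; rfl
    have h4 : k.div2 = 0 := by
      have := congrArg (fun x : Num => (x : ℕ)) h3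
      simpa using this
    have := Nat.bodd_add_div2 k
    rw [hb, h4] at this
    simpa using this.symm

theorem digits_spec (k : ℕ) : ∀ (j : ℕ) (acc : List Bool), k ≤ j →
    (digStep^[j] (k, acc)).2.map dig = (PartrecToTM2.trNat k).reverse ++ acc.map dig := by
  induction k using Nat.strong_induction_on with
  | _ k ih =>
    intro j acc hj
    by_cases hk : k = 0
    · subst hk
      have : ∀ j, digStep^[j] (0, acc) = (0, acc) := by
        intro j
        induction j with
        | zero => rfl
        | succ j ihj => rw [Function.iterate_succ_apply', ihj]; rfl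
      rw [this]; simp
    · obtain ⟨j, rfl⟩ : ∃ i, j = i + 1 := ⟨j - 1, by omega⟩
      rw [Function.iterate_succ_apply]
      have h1 : digStep (k, acc) = (k.div2, k.bodd :: acc) := by simp [digStep, hk]
      have h2 : k.div2 < k := by
        rw [Nat.div2_val]; omega
      rw [h1, ih _ h2 j _ (by omega), trNat_step k hk]
      simp

theorem digits_map (m : ℕ) : (digits m).map dig = (PartrecToTM2.trNat m).reverse := by
  rw [digits, digits_spec m m [] le_rfl]; simp

/-- **A finite Turing machine with undecidable halting problem**: the halting problem for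
`Nat.Partrec.Code` is computably reducible to the halting problem of a fixed machine `M`. -/
theorem exists_univ :
    ∃ (Γ Λ : Type) (_ : Finite Γ) (_ : Finite Λ) (_ : Inhabited Γ) (_ : Inhabited Λ)
      (M : TM0.Machine Γ Λ) (c₀ : Γ) (G : Bool → Γ) (f : Nat.Partrec.Code → List Bool),
      Computable f ∧
      ∀ c : Nat.Partrec.Code, (TM0.eval M (c₀ :: (f c).map G)).Dom ↔ (c.eval 0).Dom := by
  let uf : ℕ →. ℕ := fun m => (Denumerable.ofNat Nat.Partrec.Code m).eval 0
  have huf : Partrec uf :=
    Nat.Partrec.Code.eval_part.comp (Computable.ofNat _) (Computable.const 0)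
  have h1 : Nat.Partrec' (fun v : List.Vector ℕ 1 => uf v.head) :=
    Nat.Partrec'.part_iff₁.2 huf
  obtain ⟨c, hc⟩ := ToPartrec.Code.exists_code h1
  obtain ⟨Γ, Λ, i1, i2, i3, i4, M, c₀, G, hM⟩ := exists_machine c
  refine ⟨Γ, Λ, i1, i2, i3, i4, M, c₀, fun b => G (dig b), fun c => digits (Encodable.encode c),
    ?_, ?_⟩
  · exact (digits_primrec.comp Primrec.encode).to_comp
  · intro d
    have h2 : (digits (Encodable.encode d)).map (fun b => G (dig b))
        = (PartrecToTM2.trNat (Encodable.encode d)).reverse.map G := by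
      rw [← digits_map, List.map_map]; rfl
    rw [h2, hM]
    have h3 := hc ⟨[Encodable.encode d], rfl⟩
    change c.eval [Encodable.encode d] = _ at h3
    rw [h3]
    change (uf (Encodable.encode d)).Dom ↔ _
    simp only [uf, Denumerable.ofNat_encode]

end H71TL
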