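import Pool.Agent.Lib.Helper71.TL.Mon
import Pool.Agent.Lib.Helper71.TL.Univ

/-! Assembly: a tree-like inverse monoid with undecidable membership problems. -/

namespace H71TL

open Turing InvMon

/-! ### Finite graphs are quasi-isometric to a tree -/

theorem qi_point {V : Type} [Finite V] [Nonempty V] (G : SimpleGraph V) :
    ∃ (W : Type) (T : SimpleGraph W), T.IsTree ∧ QuasiIsometric G T := by
  classical
  have : Fintype V := Fintype.ofFinite V
  obtain ⟨v₀⟩ := ‹Nonempty V›
  let K : ℕ := ∑ p : V × V, G.dist p.1 p.2
  have hK : ∀ x y, G.dist x y ≤ K := fun x y =>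
    Finset.single_le_sum (f := fun p : V × V => G.dist p.1 p.2) (fun _ _ => Nat.zero_le _)
      (Finset.mem_univ (x, y))
  refine ⟨Unit, ⊥, ?_, fun _ => (), K, ?_, ?_, ?_⟩
  · exact SimpleGraph.IsTree.of_subsingleton
  · intro x y; simp
  · intro x y; exact (hK x y).trans (Nat.le_add_left _ _)
  · intro w; exact ⟨v₀, by simp⟩

section

variable {n : ℕ} {R : List (Word (Fin n) × Word (Fin n))}

theorem schutz_eq (m : InvMon R) : schutzVert (InvMon.gen R) m =
    {t : InvMon R | (∃ u, m * mk R u = t) ∧ ∃ u, t * mk R u = m} := by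
  ext t
  simp only [schutzVert, Reach, wordEval_gen, Set.mem_ofPred_eq]

theorem treeLike_of_finite (h : ∀ m : InvMon R,
    {t : InvMon R | (∃ u, m * mk R u = t) ∧ ∃ u, t * mk R u = m}.Finite) :
    TreeLike (InvMon.gen R) := by
  refine ⟨?_, ?_⟩
  · intro m
    induction m using InvMon.ind with
    | h w => exact ⟨w, wordEval_gen R w⟩
  · intro m
    have h1 : (schutzVert (InvMon.gen R) m).Finite := by rw [schutz_eq]; exact h m
    have : Finite (schutzVert (InvMon.gen R) m) := h1
    have : Nonempty (schutzVert (InvMon.gen R) m) :=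
      ⟨⟨m, ⟨[], by simp [wordEval]⟩, ⟨[], by simp [wordEval]⟩⟩⟩
    exact qi_point _

end

/-! ### The automaton accepting `x r^*` -/

section Aut

variable {n : ℕ} (r : Fin n × Bool)

/-- the transitions of the automaton accepting `x r^*` -/
def chain (x : Word (Fin n)) : List (ℕ × (Fin n × Bool) × ℕ) :=
  x.foldr (fun a acc => (acc.length, a, acc.length - 1) :: acc) [(0, r, 0)]

theorem chain_cons (a : Fin n × Bool) (x : Word (Fin n)) :
    chain r (a :: x) = ((chain r x).length, a, (chain r x).length - 1) :: chain r x := rfl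

theorem chain_length (x : Word (Fin n)) : (chain r x).length = x.length + 1 := by
  induction x with
  | nil => rfl
  | cons a x ih => rw [chain_cons, List.length_cons, ih, List.length_cons]

theorem chain_cons' (a : Fin n × Bool) (x : Word (Fin n)) :
    chain r (a :: x) = (x.length + 1, a, x.length) :: chain r x := by
  rw [chain_cons, chain_length]; simp

theorem mem_chain_le (x : Word (Fin n)) : ∀ t ∈ chain r x, t.1 ≤ x.length ∧ t.2.2 ≤ x.length := by
  induction x with
  | nil => intro t ht; simp only [chain, List.foldr_nil, List.mem_singleton] at ht; subst ht; simp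
  | cons a x ih =>
    intro t ht
    rw [chain_cons', List.mem_cons] at ht
    rcases ht with rfl | ht
    · simp
    · have := ih t ht
      simp only [List.length_cons]
      omega

theorem run_down (a : Fin n × Bool) (x u : Word (Fin n)) (p q : ℕ)
    (h : Run (chain r (a :: x)) p u q) : p ≤ x.length → Run (chain r x) p u q := by
  induction h with
  | nil p => intro _; exact Run.nil p
  | @cons p q s b w h1 h2 ih =>
    intro hp
    rw [chain_cons', List.mem_cons] at h1
    rcases h1 with h1 | h1
    · simp only [Prod.mk.injEq] at h1; omega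
    · exact Run.cons h1 (ih (mem_chain_le r x _ h1).2)

theorem run_up (a : Fin n × Bool) (x u : Word (Fin n)) (p q : ℕ)
    (h : Run (chain r x) p u q) : Run (chain r (a :: x)) p u q := by
  induction h with
  | nil p => exact Run.nil p
  | @cons p q s b w h1 h2 ih =>
    exact Run.cons (by rw [chain_cons']; exact List.mem_cons_of_mem _ h1) ih

theorem run_chain (x u : Word (Fin n)) :
    Run (chain r x) x.length u 0 ↔ ∃ m, u = x ++ List.replicate m r := by
  induction x generalizing u with
  | nil =>
    induction u with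
    | nil => exact ⟨fun _ => ⟨0, rfl⟩, fun _ => Run.nil 0⟩
    | cons b u ih =>
      constructor
      · intro h
        cases h with
        | cons h1 h2 =>
          simp only [chain, List.foldr_nil, List.mem_singleton, Prod.mk.injEq] at h1
          obtain ⟨-, rfl, rfl⟩ := h1
          obtain ⟨m, hm⟩ := ih.1 h2
          exact ⟨m + 1, by rw [hm]; simp [List.replicate_succ]⟩
      · rintro ⟨m, hm⟩
        cases m with
        | zero => simp at hm
        | succ m =>
          simp only [List.nil_append, List.replicate_succ, List.cons.injEq] at hm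
          obtain ⟨rfl, hm⟩ := hm
          exact Run.cons (q := 0) (by simp [chain]) (ih.2 ⟨m, hm⟩)
  | cons a x ih =>
    constructor
    · intro h
      cases h with
      | @cons _ q _ b w h1 h2 =>
        rw [chain_cons', List.mem_cons] at h1
        rcases h1 with h1 | h1
        · simp only [Prod.mk.injEq, List.length_cons] at h1
          obtain ⟨-, rfl, rfl⟩ := h1
          obtain ⟨m, hm⟩ := (ih w).1 (run_down r _ _ _ _ _ h2 le_rfl)
          exact ⟨m, by rw [hm]; rfl⟩
        · have := (mem_chain_le r x _ h1).1
          simp at this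
    · rintro ⟨m, rfl⟩
      refine Run.cons (q := x.length) ?_ (run_up r a _ _ _ _ ((ih _).2 ⟨m, rfl⟩))
      rw [chain_cons', List.length_cons]
      exact List.mem_cons_self

theorem chain_computable : Primrec (chain r) := by
  have h : Primrec₂ (fun (_ : Word (Fin n))
      (p : (Fin n × Bool) × List (ℕ × (Fin n × Bool) × ℕ)) =>
      ((p.2.length, p.1, p.2.length - 1) :: p.2 : List (ℕ × (Fin n × Bool) × ℕ))) := by
    have hl : Primrec (fun q : Word (Fin n) × (Fin n × Bool) × List (ℕ × (Fin n × Bool) × ℕ) =>
        q.2.2.length) := Primrec.list_length.comp (Primrec.snd.comp Primrec.snd)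
    refine Primrec.list_cons.comp (Primrec.pair hl (Primrec.pair ?_ ?_)) ?_
    · exact Primrec.fst.comp Primrec.snd
    · exact Primrec.nat_sub.comp hl (Primrec.const 1)
    · exact Primrec.snd.comp Primrec.snd
  exact Primrec.list_foldr Primrec.id (Primrec.const [(0, r, 0)]) h

/-- the automaton accepting `x r^*` -/
def aut (x : Word (Fin n)) : Automaton n := ([x.length], chain r x, [0])

theorem aut_accepts (x u : Word (Fin n)) :
    Accepts (aut r x) u ↔ ∃ m, u = x ++ List.replicate m r := by
  rw [← run_chain]
  constructor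
  · rintro ⟨p, hp, q, hq, h⟩
    simp only [aut, List.mem_singleton] at hp hq
    subst hp hq
    exact h
  · intro h
    exact ⟨x.length, by simp [aut], 0, by simp [aut], h⟩

theorem aut_computable : Primrec (aut r) := by
  refine Primrec.pair ?_ (Primrec.pair (chain_computable r) (Primrec.const [0]))
  exact Primrec.list_cons.comp Primrec.list_length (Primrec.const [])

end Aut

theorem mk_replicate {n : ℕ} {R : List (Word (Fin n) × Word (Fin n))} (a : Fin n × Bool) (m : ℕ) :
    mk R (List.replicate m a) = mk R [a] ^ m := by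
  induction m with
  | zero => rfl
  | succ m ih => rw [pow_succ', ← ih, mk_mul]; rfl

/-- **Main theorem.** -/
theorem main : ∃ (n : ℕ) (R : List (Word (Fin n) × Word (Fin n))),
    TreeLike (InvMon.gen R) ∧
    (∀ s : InvMon R, (schutzVert (InvMon.gen R) s).Finite) ∧
    ¬ ComputablePred (RationalSubsetMembership (InvMon.gen R)) ∧
    ¬ ComputablePred (SubmonoidMembership (InvMon.gen R)) ∧
    ¬ ComputablePred (InverseSubmonoidMembership (InvMon.gen R)) ∧
    ¬ ComputablePred (ClosedInverseSubmonoidMembership (InvMon.gen R)) := by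
  classical
  obtain ⟨Γ, Λ, i1, i2, i3, i4, M, c₀, G, f, hf, hM⟩ := exists_univ
  obtain ⟨n, ⟨e⟩⟩ := Finite.exists_equiv_fin (Letter (Cell Γ Λ))
  let R := RList M e
  let x : Nat.Partrec.Code → Word (Fin n) := fun c =>
    pos ((Letter.lam :: hw (row₀ (Λ := Λ) (c₀ :: (f c).map G))).map e)
  let r : Fin n × Bool := (e (.V bl), true)
  let z : Fin n × Bool := (e .z, true)
  have hx : Computable x := by
    have h1 : Computable (fun c => (f c).map fun b =>
        ((e (.h ((G b, none), none)), true) : Fin n × Bool)) := by
      have h2 : Primrec (fun l : List Bool => l.map fun b =>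
          ((e (.h ((G b, none), none)), true) : Fin n × Bool)) :=
        Primrec.list_map Primrec.id ((Primrec.dom_finite (fun b : Bool =>
          ((e (.h ((G b, none), none)), true) : Fin n × Bool))).comp Primrec.snd).to₂
      exact h2.to_comp.comp hf
    have h3 : Computable (fun c => (e .lam, true) :: (e (.h bl), true) ::
        (e (.h ((c₀, some default), none)), true) :: ((f c).map fun b =>
        ((e (.h ((G b, none), none)), true) : Fin n × Bool))) :=
      Computable.list_cons.comp (Computable.const _) (Computable.list_cons.comp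
        (Computable.const _) (Computable.list_cons.comp (Computable.const _) h1))
    refine h3.of_eq fun c => ?_
    simp [x, pos, hw, row₀, Function.comp_def]
  have hmkx : ∀ c, mk R (x c) = lm M e (.lam :: hw (row₀ (c₀ :: (f c).map G))) := fun c => rfl
  have hmkr : mk R [r] = lm M e [.V bl] := rfl
  have hmkz : mk R [z] = lm M e [.z] := rfl
  -- halting case
  have hhalt : ∀ c : Nat.Partrec.Code, (c.eval 0).Dom →
      ∃ m : ℕ, mk R (x c) * mk R [r] ^ m = mk R [z] := by
    intro c hc
    have h1 := (hM c).2 hc
    rw [hmkx, hmkr, hmkz]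
    exact halts_zero M e (repr_init _) h1
  -- non-halting case
  have hnohalt : ∀ c : Nat.Partrec.Code, ¬ (c.eval 0).Dom →
      ∃ H : Submonoid (InvMon R), (∀ h ∈ H, h⁻¹ ∈ H) ∧
      (∀ h ∈ H, ∀ m, natLE h m → m ∈ H) ∧ mk R (x c) ∈ H ∧ mk R [r] ∈ H ∧ mk R [z] ∉ H := by
    intro c hc
    have h1 : ¬ (StateTransition.eval (TM0.step M)
        (TM0.init (c₀ :: (f c).map G) : TM0.Cfg Γ Λ)).Dom := fun h => hc ((hM c).1 h)
    obtain ⟨row, hrow, hr⟩ := exists_rows M (repr_init _) h1
    obtain ⟨H, a1, a2, a3, a4, a5⟩ := nohalt_submonoid e hr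
    rw [hrow] at a3
    exact ⟨H, a1, a2, a3, a4, a5⟩
  have hfin : ∀ m : InvMon R, {t : InvMon R | (∃ u, m * mk R u = t) ∧
      ∃ u, t * mk R u = m}.Finite := rclass_finite_M M e
  have key : ∀ P : List (Word (Fin n)) × Word (Fin n) → Prop,
      (∀ (c : Nat.Partrec.Code) (m : ℕ), mk R (x c) * mk R [r] ^ m = mk R [z] →
        P ([x c, [r]], [z])) →
      (∀ (c : Nat.Partrec.Code) (H : Submonoid (InvMon R)), (∀ h ∈ H, h⁻¹ ∈ H) →
        (∀ h ∈ H, ∀ m, natLE h m → m ∈ H) →
        (∀ y ∈ ([x c, [r]] : List (Word (Fin n))), wordEval (InvMon.gen R) y ∈ H) →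
        wordEval (InvMon.gen R) [z] ∉ H → ¬ P ([x c, [r]], [z])) →
      ¬ ComputablePred P := by
    intro P h1 h2 hP
    refine ComputablePred.halting_problem 0
      (ComputablePred.computable_of_manyOneReducible ⟨fun c => ([x c, [r]], [z]), ?_, ?_⟩ hP)
    · exact Computable.pair (Computable.list_cons.comp hx (Computable.const _))
        (Computable.const _)
    · intro c
      constructor
      · intro hc
        obtain ⟨m, hm⟩ := hhalt c hc
        exact h1 c m hm
      · intro h
        by_contra hc
        obtain ⟨H, a1, a2, a3, a4, a5⟩ := hnohalt c hc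
        refine h2 c H a1 a2 ?_ ?_ h
        · intro y hy
          rw [wordEval_gen]
          simp only [List.mem_cons, List.not_mem_nil, or_false] at hy
          rcases hy with rfl | rfl
          · exact a3
          · exact a4
        · rw [wordEval_gen]; exact a5
  refine ⟨n, R, treeLike_of_finite hfin, ?_, ?_, ?_, ?_, ?_⟩
  · intro s; rw [schutz_eq]; exact hfin s
  · intro hP
    refine ComputablePred.halting_problem 0
      (ComputablePred.computable_of_manyOneReducible ⟨fun c => (aut r (x c), [z]), ?_, ?_⟩ hP)
    · exact Computable.pair ((aut_computable r).to_comp.comp hx) (Computable.const _)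
    · intro c
      constructor
      · intro hc
        obtain ⟨m, hm⟩ := hhalt c hc
        refine ⟨x c ++ List.replicate m r, (aut_accepts _ _ _).2 ⟨m, rfl⟩, ?_⟩
        rw [wordEval_gen, wordEval_gen, ← mk_mul, mk_replicate, hm]
      · rintro ⟨u, hu, hu2⟩
        by_contra hc
        obtain ⟨H, a1, a2, a3, a4, a5⟩ := hnohalt c hc
        obtain ⟨m, rfl⟩ := (aut_accepts _ _ _).1 hu
        rw [wordEval_gen, wordEval_gen, ← mk_mul, mk_replicate] at hu2
        exact a5 (hu2 ▸ H.mul_mem a3 (H.pow_mem a4 m))
  · apply key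
    · intro c m hm
      have h1 : mk R (x c) ∈ Submonoid.closure {m : InvMon R |
          ∃ y ∈ ([x c, [r]] : List (Word (Fin n))), wordEval (InvMon.gen R) y = m} :=
        Submonoid.subset_closure ⟨x c, by simp, wordEval_gen _ _⟩
      have h2 : mk R [r] ∈ Submonoid.closure {m : InvMon R |
          ∃ y ∈ ([x c, [r]] : List (Word (Fin n))), wordEval (InvMon.gen R) y = m} :=
        Submonoid.subset_closure ⟨[r], by simp, wordEval_gen _ _⟩
      change wordEval (InvMon.gen R) [z] ∈ _
      rw [wordEval_gen, ← hm]
      exact Submonoid.mul_mem _ h1 (Submonoid.pow_mem _ h2 _)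
    · intro c H a1 a2 a3 a4 h
      exact a4 ((Submonoid.closure_le (S := H)).2 (by rintro _ ⟨y, hy, rfl⟩; exact a3 y hy) h)
  · apply key
    · intro c m hm H h1 h2
      change wordEval (InvMon.gen R) [z] ∈ _
      rw [wordEval_gen, ← hm]
      refine H.mul_mem ?_ (H.pow_mem ?_ _)
      · rw [← wordEval_gen]; exact h2 _ (by simp)
      · rw [← wordEval_gen]; exact h2 _ (by simp)
    · intro c H a1 a2 a3 a4 h
      exact a4 (h H a1 a3)
  · apply key
    · intro c m hm H h1 h3 h2
      change wordEval (InvMon.gen R) [z] ∈ _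
      rw [wordEval_gen, ← hm]
      refine H.mul_mem ?_ (H.pow_mem ?_ _)
      · rw [← wordEval_gen]; exact h2 _ (by simp)
      · rw [← wordEval_gen]; exact h2 _ (by simp)
    · intro c H a1 a2 a3 a4 h
      exact a4 (h H a1 a2 a3)

end H71TL
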