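import Mathlib

/-! A reversible-by-garbage sweeping simulation of Turing machines: one sweep of a signal from
right to left through a row of cells executes one step of the machine. -/

namespace H71TL

open Turing

variable {Γ Λ : Type}

/-- A cell: a tape symbol, possibly the head with its state, and a garbage record. -/
abbrev Cell (Γ Λ : Type) := (Γ × Option Λ) × Option (Fin 3 × Γ × Λ)

/-- `Gate M c v v' c'`: the column `c` and the signal `v` arriving from the right are turned into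
the signal `v'` (leaving to the left) and the column `c'`. -/
inductive Gate [Inhabited Λ] (M : TM0.Machine Γ Λ) :
    Cell Γ Λ → Cell Γ Λ → Cell Γ Λ → Cell Γ Λ → Prop
  | plain (a c : Γ) (g g' : Option (Fin 3 × Γ × Λ)) :
      Gate M ((a, none), g) ((c, none), g') ((a, none), g') ((c, none), g)
  | write (a c a' : Γ) (q q' : Λ) (g : Option (Fin 3 × Γ × Λ)) :
      M q a = some (q', TM0.Stmt.write a') →
      Gate M ((a, some q), g) ((c, none), none) ((a', some q'), some (0, a, q)) ((c, none), g)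
  | right (a c : Γ) (q q' : Λ) (g : Option (Fin 3 × Γ × Λ)) :
      M q a = some (q', TM0.Stmt.move Dir.right) →
      Gate M ((a, some q), g) ((c, none), none) ((a, none), some (1, a, q)) ((c, some q'), g)
  | wait (a c : Γ) (q q' : Λ) (g : Option (Fin 3 × Γ × Λ)) :
      M q a = some (q', TM0.Stmt.move Dir.left) →
      Gate M ((a, some q), g) ((c, none), none) ((a, some q), none) ((c, none), g)
  | left (a c : Γ) (q q' : Λ) (g : Option (Fin 3 × Γ × Λ)) :
      M q a = some (q', TM0.Stmt.move Dir.left) →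
      Gate M ((c, none), g) ((a, some q), none) ((c, some q'), some (2, a, q)) ((a, none), g)
  | pass (a c : Γ) (q : Λ) (k : Fin 3) (b : Γ) (p : Λ) (g : Option (Fin 3 × Γ × Λ)) :
      k ≠ 1 →
      Gate M ((c, none), g) ((a, some q), some (k, b, p)) ((c, none), some (k, b, p))
        ((a, some q), g)

theorem Gate.fn [Inhabited Λ] {M : TM0.Machine Γ Λ} {c v v' c' w' d' : Cell Γ Λ}
    (h : Gate M c v v' c') (h' : Gate M c v w' d') : v' = w' ∧ c' = d' := by
  cases h <;> cases h' <;> simp_all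

theorem Gate.inj [Inhabited Λ] {M : TM0.Machine Γ Λ} {c v v' c' d w : Cell Γ Λ}
    (h : Gate M c v v' c') (h' : Gate M d w v' c') : c = d ∧ v = w := by
  cases h <;> cases h' <;> simp_all

/-- `Sweep M v s v' s'`: the signal `v` enters the row `s` from the right and leaves it at the
left as `v'`, having transformed the row into `s'`. -/
inductive Sweep [Inhabited Λ] (M : TM0.Machine Γ Λ) :
    Cell Γ Λ → List (Cell Γ Λ) → Cell Γ Λ → List (Cell Γ Λ) → Prop
  | nil (v : Cell Γ Λ) : Sweep M v [] v []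
  | cons {v v₁ v₂ c c' : Cell Γ Λ} {s s' : List (Cell Γ Λ)} :
      Sweep M v s v₁ s' → Gate M c v₁ v₂ c' → Sweep M v (c :: s) v₂ (c' :: s')

section

variable [Inhabited Λ] {M : TM0.Machine Γ Λ}

theorem Sweep.fn {v v' w' : Cell Γ Λ} {s s' t' : List (Cell Γ Λ)}
    (h : Sweep M v s v' s') (h' : Sweep M v s w' t') : v' = w' ∧ s' = t' := by
  induction h generalizing w' t' with
  | nil => cases h'; exact ⟨rfl, rfl⟩
  | cons h1 h2 ih =>
    cases h' with
    | cons k1 k2 =>
      obtain ⟨rfl, rfl⟩ := ih k1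
      obtain ⟨rfl, rfl⟩ := h2.fn k2
      exact ⟨rfl, rfl⟩

theorem Sweep.inj {v v' : Cell Γ Λ} {s s' : List (Cell Γ Λ)} {w : Cell Γ Λ}
    {t : List (Cell Γ Λ)} (h : Sweep M v s v' s') (h' : Sweep M w t v' s') : v = w ∧ s = t := by
  induction h generalizing t with
  | nil => cases h'; exact ⟨rfl, rfl⟩
  | cons h1 h2 ih =>
    cases h' with
    | cons k1 k2 =>
      obtain ⟨rfl, rfl⟩ := h2.inj k2
      obtain ⟨rfl, rfl⟩ := ih k1
      exact ⟨rfl, rfl⟩

theorem Sweep.append {v v₁ v₂ : Cell Γ Λ} {s s' t t' : List (Cell Γ Λ)}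
    (h : Sweep M v t v₁ t') (h' : Sweep M v₁ s v₂ s') : Sweep M v (s ++ t) v₂ (s' ++ t') := by
  induction h' with
  | nil => exact h
  | cons k1 k2 ih => exact Sweep.cons ih k2

theorem Sweep.split {v v₂ : Cell Γ Λ} {s t u : List (Cell Γ Λ)}
    (h : Sweep M v (s ++ t) v₂ u) :
    ∃ v₁ s' t', Sweep M v t v₁ t' ∧ Sweep M v₁ s v₂ s' ∧ u = s' ++ t' := by
  induction s generalizing v₂ u with
  | nil => exact ⟨_, [], _, h, Sweep.nil _, rfl⟩
  | cons c s ih =>
    cases h with
    | cons k1 k2 =>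
      obtain ⟨v₁, s', t', h1, h2, rfl⟩ := ih k1
      exact ⟨v₁, _ :: s', t', h1, Sweep.cons h2 k2, rfl⟩

theorem Sweep.length {v v' : Cell Γ Λ} {s s' : List (Cell Γ Λ)}
    (h : Sweep M v s v' s') : s'.length = s.length := by
  induction h with
  | nil => rfl
  | cons _ _ ih => simp [ih]

end

/-- symbols of a row -/
def syms (s : List (Cell Γ Λ)) : List Γ := s.map fun c => c.1.1

/-- rows without head -/
def Plain (s : List (Cell Γ Λ)) : Prop := ∀ c ∈ s, c.1.2 = none

theorem plain_nil : Plain ([] : List (Cell Γ Λ)) := by intro c hc; cases hc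

theorem plain_cons {c : Cell Γ Λ} {s : List (Cell Γ Λ)} :
    Plain (c :: s) ↔ c.1.2 = none ∧ Plain s := by
  simp [Plain]

theorem plain_append {s t : List (Cell Γ Λ)} : Plain (s ++ t) ↔ Plain s ∧ Plain t := by
  simp only [Plain, List.mem_append]
  constructor
  · intro h; exact ⟨fun c hc => h c (Or.inl hc), fun c hc => h c (Or.inr hc)⟩
  · rintro ⟨h1, h2⟩ c (hc | hc)
    · exact h1 c hc
    · exact h2 c hc

section

variable [Inhabited Λ] {M : TM0.Machine Γ Λ}

theorem plainSweep (c : Γ) (g' : Option (Fin 3 × Γ × Λ)) (s : List (Cell Γ Λ)) (hs : Plain s) :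
    ∃ (x : Γ) (s' : List (Cell Γ Λ)), Sweep M ((c, none), g') s ((x, none), g') s' ∧ Plain s' ∧
      x :: syms s' = syms s ++ [c] := by
  induction s with
  | nil => exact ⟨c, [], Sweep.nil _, plain_nil, rfl⟩
  | cons d s ih =>
    obtain ⟨⟨a, o⟩, g⟩ := d
    obtain ⟨h1, h2⟩ := plain_cons.1 hs
    obtain rfl : o = none := h1
    obtain ⟨x, s', k1, k2, k3⟩ := ih h2
    refine ⟨a, ((x, none), g) :: s', Sweep.cons k1 (Gate.plain _ _ _ _), plain_cons.2 ⟨rfl, k2⟩, ?_⟩
    simp only [syms, List.map_cons, List.cons_append] at k3 ⊢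
    rw [k3]

variable [Inhabited Γ]

/-- the blank cell -/
def bl : Cell Γ Λ := ((default, none), none)

theorem passSweep (a : Γ) (q : Λ) (k : Fin 3) (b : Γ) (p : Λ) (hk : k ≠ 1)
    (s : List (Cell Γ Λ)) (hs : Plain s) :
    ∃ (τ : Cell Γ Λ) (s' A : List (Cell Γ Λ)) (g' : Option (Fin 3 × Γ × Λ)),
      Sweep M ((a, some q), some (k, b, p)) s τ s' ∧
      bl :: τ :: s' = A ++ [((a, some q), g')] ∧ A ≠ [] ∧ Plain A ∧
      syms A = default :: syms s := by
  rcases List.eq_nil_or_concat s with rfl | ⟨s₀, c, rfl⟩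
  · exact ⟨_, [], [bl], some (k, b, p), Sweep.nil _, rfl, by simp,
      plain_cons.2 ⟨rfl, plain_nil⟩, rfl⟩
  · rw [List.concat_eq_append] at hs ⊢
    rw [plain_append] at hs
    obtain ⟨h1, h2⟩ := hs
    obtain ⟨⟨y, o⟩, g₀⟩ := c
    obtain rfl : o = none := (plain_cons.1 h2).1
    obtain ⟨x, s', k1, k2, k3⟩ := plainSweep (M := M) y (some (k, b, p)) s₀ h1
    refine ⟨((x, none), some (k, b, p)), s' ++ [((a, some q), g₀)],
      bl :: ((x, none), some (k, b, p)) :: s', g₀, ?_, by simp, by simp, ?_, ?_⟩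
    · exact Sweep.append (Sweep.cons (Sweep.nil _) (Gate.pass _ _ _ _ _ _ _ hk)) k1
    · exact plain_cons.2 ⟨rfl, plain_cons.2 ⟨rfl, k2⟩⟩
    · simp only [syms, List.map_cons, List.map_append, List.map_nil] at k3 ⊢
      rw [← k3]; rfl

/-- the row `s` represents the configuration `cfg` -/
def Repr (s : List (Cell Γ Λ)) (cfg : TM0.Cfg Γ Λ) : Prop :=
  ∃ (A B : List (Cell Γ Λ)) (g : Option (Fin 3 × Γ × Λ)),
    s = A ++ ((cfg.Tape.head, some cfg.q), g) :: B ∧ A ≠ [] ∧ Plain A ∧ Plain B ∧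
    cfg.Tape.left = ListBlank.mk (syms A).reverse ∧ cfg.Tape.right = ListBlank.mk (syms B)

/-- the next row -/
def Next (M : TM0.Machine Γ Λ) (s t : List (Cell Γ Λ)) : Prop :=
  ∃ (τ : Cell Γ Λ) (s' : List (Cell Γ Λ)), Sweep M bl s τ s' ∧ t = bl :: τ :: s'

theorem mk_append_default (l : List Γ) : ListBlank.mk (l ++ [default]) = ListBlank.mk l := by
  apply Quotient.sound
  exact Or.inr ⟨1, by simp⟩

theorem mk_cons_reverse (l : List Γ) :
    ListBlank.mk (default :: l).reverse = ListBlank.mk l.reverse := by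
  rw [List.reverse_cons, mk_append_default]

theorem Repr.step {s : List (Cell Γ Λ)} {cfg cfg' : TM0.Cfg Γ Λ} (h : Repr s cfg)
    (hst : TM0.step M cfg = some cfg') : ∃ t, Next M s t ∧ Repr t cfg' := by
  obtain ⟨q, T⟩ := cfg
  obtain ⟨A, B, g, rfl, hA, hpA, hpB, hL, hR⟩ := h
  simp only at hL hR
  simp only [TM0.step, Option.map_eq_some_iff] at hst
  obtain ⟨⟨q', st⟩, hM, rfl⟩ := hst
  obtain ⟨x, B', hB1, hB2, hB3⟩ := plainSweep (M := M) default none B hpB
  have hRB : T.right = ListBlank.mk (x :: syms B') := by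
    rw [hB3, mk_append_default, hR]
  match st, hM with
  | TM0.Stmt.write a', hM =>
    obtain ⟨τ, s', A', g', h1, h2, h3, h4, h5⟩ :=
      passSweep (M := M) a' q' 0 T.head q (by decide) A hpA
    refine ⟨_, ⟨τ, s' ++ ((x, none), g) :: B', ?_, rfl⟩, ?_⟩
    · exact Sweep.append (Sweep.cons hB1 (Gate.write _ _ _ _ _ _ hM)) h1
    · refine ⟨A', ((x, none), g) :: B', g', ?_, h3, h4, plain_cons.2 ⟨rfl, hB2⟩, ?_, ?_⟩
      · have : bl :: τ :: (s' ++ ((x, none), g) :: B')
            = (bl :: τ :: s') ++ (((x, none), g) :: B') := by simp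
        rw [this, h2]; simp [Tape.write]
      · simp only [Tape.write]
        rw [hL, h5, mk_cons_reverse]
      · simp only [Tape.write]
        rw [hRB]; rfl
  | TM0.Stmt.move Dir.right, hM =>
    obtain ⟨y, A', h1, h2, h3⟩ :=
      plainSweep (M := M) T.head (some (1, T.head, q)) A hpA
    refine ⟨_, ⟨((y, none), some (1, T.head, q)), A' ++ ((x, some q'), g) :: B', ?_, rfl⟩, ?_⟩
    · exact Sweep.append (Sweep.cons hB1 (Gate.right _ _ _ _ _ hM)) h1
    · refine ⟨bl :: ((y, none), some (1, T.head, q)) :: A', B', g, ?_, by simp,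
        plain_cons.2 ⟨rfl, plain_cons.2 ⟨rfl, h2⟩⟩, hB2, ?_, ?_⟩
      · simp [Tape.move, hRB]
      · simp only [Tape.move]
        have : syms (bl :: ((y, none), some (1, T.head, q)) :: A')
            = default :: (syms A ++ [T.head]) := by
          rw [← h3]; rfl
        rw [this, mk_cons_reverse, hL]
        simp [ListBlank.cons_mk]
      · simp [Tape.move, hRB]
  | TM0.Stmt.move Dir.left, hM =>
    rcases List.eq_nil_or_concat A with rfl | ⟨A₀, c, rfl⟩
    · exact absurd rfl hA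
    · rw [List.concat_eq_append] at hpA hL hA ⊢
      rw [plain_append] at hpA
      obtain ⟨k1, k2⟩ := hpA
      obtain ⟨⟨y, o⟩, g₀⟩ := c
      obtain rfl : o = none := (plain_cons.1 k2).1
      obtain ⟨τ, s', A', g', h1, h2, h3, h4, h5⟩ :=
        passSweep (M := M) y q' 2 T.head q (by decide) A₀ k1
      have hLy : T.left = ListBlank.mk (y :: (syms A₀).reverse) := by
        rw [hL]; simp [syms]
      refine ⟨_, ⟨τ, (s' ++ [((T.head, none), g₀)]) ++ ((x, none), g) :: B', ?_, rfl⟩, ?_⟩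
      · refine Sweep.append (Sweep.cons hB1 (Gate.wait _ _ _ _ _ hM)) ?_
        exact Sweep.append (Sweep.cons (Sweep.nil _) (Gate.left _ _ _ _ _ hM)) h1
      · refine ⟨A', ((T.head, none), g₀) :: ((x, none), g) :: B', g', ?_, h3, h4,
          plain_cons.2 ⟨rfl, plain_cons.2 ⟨rfl, hB2⟩⟩, ?_, ?_⟩
        · have : bl :: τ :: (s' ++ [((T.head, none), g₀)] ++ ((x, none), g) :: B')
            = (bl :: τ :: s') ++ (((T.head, none), g₀) :: ((x, none), g) :: B') := by simp
          rw [this, h2]; simp [Tape.move, hLy]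
        · simp only [Tape.move]
          rw [h5, mk_cons_reverse, hLy]; simp
        · simp only [Tape.move]
          rw [hRB]; simp [ListBlank.cons_mk, syms]

theorem Repr.halt {s : List (Cell Γ Λ)} {cfg : TM0.Cfg Γ Λ} (h : Repr s cfg)
    (hst : TM0.step M cfg = none) : ∃ a q g, ((a, some q), g) ∈ s ∧ M q a = none := by
  obtain ⟨q, T⟩ := cfg
  obtain ⟨A, B, g, rfl, hA, hpA, hpB, hL, hR⟩ := h
  simp only [TM0.step, Option.map_eq_none_iff] at hst
  exact ⟨_, _, g, by simp, hst⟩

theorem Repr.no_halt {s : List (Cell Γ Λ)} {cfg : TM0.Cfg Γ Λ} (h : Repr s cfg)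
    (hst : TM0.step M cfg ≠ none) {a : Γ} {q : Λ} {g : Option (Fin 3 × Γ × Λ)}
    (hm : ((a, some q), g) ∈ s) : M q a ≠ none := by
  obtain ⟨q₀, T⟩ := cfg
  obtain ⟨A, B, g, rfl, hA, hpA, hpB, hL, hR⟩ := h
  simp only [List.mem_append, List.mem_cons] at hm
  rcases hm with hm | hm | hm
  · have := hpA _ hm; simp at this
  · simp only [Prod.mk.injEq, Option.some.injEq] at hm
    obtain ⟨⟨rfl, rfl⟩, -⟩ := hm
    intro h0
    apply hst
    simp [TM0.step, h0]
  · have := hpB _ hm; simp at this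

/-- the initial row -/
def row₀ (l : List Γ) : List (Cell Γ Λ) :=
  bl :: ((l.headI, some default), none) :: l.tail.map fun c => ((c, none), none)

theorem repr_init (l : List Γ) : Repr (row₀ l : List (Cell Γ Λ)) (TM0.init l) := by
  refine ⟨[bl], l.tail.map fun c => ((c, none), none), none, ?_, by simp,
    plain_cons.2 ⟨rfl, plain_nil⟩, ?_, ?_, ?_⟩
  · simp [row₀, TM0.init, Tape.mk₁, Tape.mk₂, Tape.mk']
  · intro c hc
    simp only [List.mem_map] at hc
    obtain ⟨a, -, rfl⟩ := hc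
    rfl
  · simp only [TM0.init, Tape.mk₁, Tape.mk₂, Tape.mk']
    have : (syms ([bl] : List (Cell Γ Λ))).reverse = [] ++ [default] := rfl
    rw [this, mk_append_default]
  · simp only [TM0.init, Tape.mk₁, Tape.mk₂, Tape.mk', ListBlank.tail_mk]
    congr 1
    simp [syms, Function.comp_def]

theorem Next.length {s t : List (Cell Γ Λ)} (h : Next M s t) : t.length = s.length + 2 := by
  obtain ⟨τ, s', h1, rfl⟩ := h
  simp [h1.length]

end

end H71TL
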