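import Pool.Agent.Lib.Helper71.TL.Finite
import Pool.Agent.Lib.Helper71.TL.Sweep

/-! The inverse monoid attached to a Turing machine. -/

namespace H71TL

open Turing InvMon

/-- the letters: columns, signals, and three further letters -/
inductive Letter (C : Type)
  | h (c : C)
  | V (c : C)
  | lam
  | U
  | z

/-- letters as a sum -/
def Letter.toSum {C : Type} : Letter C → (C ⊕ C) ⊕ Fin 3
  | .h c => .inl (.inl c)
  | .V c => .inl (.inr c)
  | .lam => .inr 0
  | .U => .inr 1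
  | .z => .inr 2

theorem Letter.toSum_inj {C : Type} : Function.Injective (Letter.toSum (C := C)) := by
  intro a b h
  cases a <;> cases b <;> simp_all [Letter.toSum]

instance {C : Type} [Finite C] : Finite (Letter C) := Finite.of_injective _ Letter.toSum_inj

/-- weights of the letters -/
def Letter.wt {C : Type} : Letter C → ℕ
  | .V _ => 3
  | _ => 1

section

variable {Γ Λ : Type} [Inhabited Γ] [Inhabited Λ] (M : TM0.Machine Γ Λ)

/-- the defining relations (as relations between positive words) -/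
inductive Rel0 : List (Letter (Cell Γ Λ)) → List (Letter (Cell Γ Λ)) → Prop
  | gate {c v v' c' : Cell Γ Λ} : Gate M c v v' c' →
      Rel0 [.h c, .V v] [.V v', .h c']
  | turn (v : Cell Γ Λ) : Rel0 [.lam, .V v] [.U, .lam, .h bl, .h v]
  | zl (a : Letter (Cell Γ Λ)) : Rel0 [.z, a] [.z]
  | zr (a : Letter (Cell Γ Λ)) : Rel0 [a, .z] [.z]
  | halt {a : Γ} {q : Λ} {g : Option (Fin 3 × Γ × Λ)} : M q a = none →
      Rel0 [.h ((a, some q), g)] [.z]

theorem rel0_finite [Finite Γ] [Finite Λ] :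
    {p : List (Letter (Cell Γ Λ)) × List (Letter (Cell Γ Λ)) | Rel0 M p.1 p.2}.Finite := by
  have h4 : ({u : List (Letter (Cell Γ Λ)) | u.length ≤ 4} ×ˢ
      {u : List (Letter (Cell Γ Λ)) | u.length ≤ 4}).Finite :=
    Set.Finite.prod (List.finite_length_le _ 4) (List.finite_length_le _ 4)
  refine h4.subset ?_
  rintro ⟨u, v⟩ huv
  simp only [Set.mem_ofPred_eq] at huv
  simp only [Set.mem_prod, Set.mem_ofPred_eq]
  cases huv <;> simp

variable {n : ℕ} (e : Letter (Cell Γ Λ) ≃ Fin n)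

/-- the finite list of relations over the alphabet `Fin n` -/
noncomputable def RList [Finite Γ] [Finite Λ] : List (Word (Fin n) × Word (Fin n)) :=
  (rel0_finite M).toFinset.toList.map fun p => (pos (p.1.map e), pos (p.2.map e))

theorem mem_RList [Finite Γ] [Finite Λ] {l r : Word (Fin n)} :
    (l, r) ∈ RList M e ↔ ∃ u v, Rel0 M u v ∧ l = pos (u.map e) ∧ r = pos (v.map e) := by
  simp only [RList, List.mem_map, Finset.mem_toList, Set.Finite.mem_toFinset, Set.mem_ofPred_eq,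
    Prod.mk.injEq, Prod.exists]
  constructor
  · rintro ⟨u, v, h1, h2, h3⟩; exact ⟨u, v, h1, h2.symm, h3.symm⟩
  · rintro ⟨u, v, h1, h2, h3⟩; exact ⟨u, v, h1, h2.symm, h3.symm⟩

section

variable [Finite Γ] [Finite Λ]

/-- image of a positive word over `Letter` -/
noncomputable def lm (u : List (Letter (Cell Γ Λ))) : InvMon (RList M e) :=
  mk (RList M e) (pos (u.map e))

theorem lm_append (u v : List (Letter (Cell Γ Λ))) : lm M e (u ++ v) = lm M e u * lm M e v := by
  simp [lm, mk_mul, pos_append]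

theorem lm_cons (a : Letter (Cell Γ Λ)) (v : List (Letter (Cell Γ Λ))) :
    lm M e (a :: v) = lm M e [a] * lm M e v := by
  rw [← lm_append]; rfl

theorem lm_rel {u v : List (Letter (Cell Γ Λ))} (h : Rel0 M u v) : lm M e u = lm M e v :=
  mk_eq.2 (Eqv.rel ((mem_RList M e).2 ⟨u, v, h, rfl, rfl⟩))

theorem lm_zl (a : Letter (Cell Γ Λ)) : lm M e [.z] * lm M e [a] = lm M e [.z] := by
  rw [← lm_append]; exact lm_rel M e (.zl a)

theorem lm_zr (a : Letter (Cell Γ Λ)) : lm M e [a] * lm M e [.z] = lm M e [.z] := by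
  rw [← lm_append]; exact lm_rel M e (.zr a)

theorem zl' (a : Fin n) : mk (RList M e) [(e .z, true)] * mk (RList M e) [(a, true)]
    = mk (RList M e) [(e .z, true)] := by
  have := lm_zl M e (e.symm a)
  simpa [lm, pos] using this

theorem zr' (a : Fin n) : mk (RList M e) [(a, true)] * mk (RList M e) [(e .z, true)]
    = mk (RList M e) [(e .z, true)] := by
  have := lm_zr M e (e.symm a)
  simpa [lm, pos] using this

theorem lm_zero (m : InvMon (RList M e)) :
    lm M e [.z] * m = lm M e [.z] ∧ m * lm M e [.z] = lm M e [.z] :=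
  zero_absorbs (zl' M e) (zr' M e) m

/-- all Schützenberger graphs are finite -/
theorem rclass_finite_M (m : InvMon (RList M e)) :
    {t : InvMon (RList M e) | (∃ u, m * mk (RList M e) u = t) ∧
      ∃ u, t * mk (RList M e) u = m}.Finite := by
  refine rclass_finite (fun a => (e.symm a).wt) ?_ (e .z) (zl' M e) (zr' M e) ?_ m
  · intro a
    cases e.symm a <;> simp [Letter.wt]
  · intro l r hlr
    obtain ⟨u, v, huv, rfl, rfl⟩ := (mem_RList M e).1 hlr
    cases huv with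
    | gate h =>
      left
      exact ⟨_, _, rfl, rfl, by simp [wtP, Letter.wt]⟩
    | turn v =>
      left
      exact ⟨_, _, rfl, rfl, by simp [wtP, Letter.wt]⟩
    | zl a =>
      right
      exact ⟨lm_rel M e (.zl a), rfl⟩
    | zr a =>
      right
      exact ⟨lm_rel M e (.zr a), rfl⟩
    | halt h =>
      right
      exact ⟨lm_rel M e (.halt h), rfl⟩

/-- the word of a row -/
def hw (s : List (Cell Γ Λ)) : List (Letter (Cell Γ Λ)) := s.map Letter.h

theorem sweep_lm {v v' : Cell Γ Λ} {s s' : List (Cell Γ Λ)} (h : Sweep M v s v' s') :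
    lm M e (hw s ++ [.V v]) = lm M e (.V v' :: hw s') := by
  induction h with
  | nil => rfl
  | @cons v₁ v₂ c c' s s' h1 h2 ih =>
    have e1 : hw (c :: s) ++ [Letter.V v] = .h c :: (hw s ++ [Letter.V v]) := rfl
    rw [e1, lm_cons, ih, ← lm_append]
    have e2 : [Letter.h c] ++ (Letter.V v₁ :: hw s') = [Letter.h c, Letter.V v₁] ++ hw s' := rfl
    rw [e2, lm_append, lm_rel M e (.gate h2), ← lm_append]
    rfl

theorem next_lm {s t : List (Cell Γ Λ)} (h : Next M s t) :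
    lm M e (.lam :: hw s) * lm M e [.V bl] = lm M e [.U] * lm M e (.lam :: hw t) := by
  obtain ⟨τ, s', h1, rfl⟩ := h
  rw [lm_cons, mul_assoc, ← lm_append, sweep_lm M e h1, ← lm_append, ← lm_append]
  have e1 : [Letter.lam] ++ (Letter.V τ :: hw s') = [Letter.lam, Letter.V τ] ++ hw s' := rfl
  rw [e1, lm_append, lm_rel M e (.turn τ), ← lm_append]
  rfl

/-- if the machine halts, some `x r^m` is zero -/
theorem halts_zero {cfg₀ : TM0.Cfg Γ Λ} {s₀ : List (Cell Γ Λ)} (h0 : Repr s₀ cfg₀)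
    (h : (StateTransition.eval (TM0.step M) cfg₀).Dom) :
    ∃ m : ℕ, lm M e (.lam :: hw s₀) * lm M e [.V bl] ^ m = lm M e [.z] := by
  obtain ⟨cfg, hcfg⟩ := Part.dom_iff_mem.1 h
  obtain ⟨h1, h2⟩ := StateTransition.mem_eval.1 hcfg
  have key : ∃ (m : ℕ) (s : List (Cell Γ Λ)), Repr s cfg ∧
      lm M e (.lam :: hw s₀) * lm M e [.V bl] ^ m = lm M e [.U] ^ m * lm M e (.lam :: hw s) := by
    clear h2 hcfg h
    induction h1 with
    | refl => exact ⟨0, s₀, h0, by simp⟩
    | @tail b c _ hbc ih =>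
      obtain ⟨m, s, hs, hm⟩ := ih
      obtain ⟨t, ht, htr⟩ := hs.step (M := M) hbc
      refine ⟨m + 1, t, htr, ?_⟩
      rw [pow_succ, ← mul_assoc, hm, mul_assoc, next_lm M e ht, pow_succ, mul_assoc]
  obtain ⟨m, s, hs, hm⟩ := key
  refine ⟨m, ?_⟩
  obtain ⟨a, q, g, hmem, hMa⟩ := hs.halt (M := M) h2
  obtain ⟨s1, s2, rfl⟩ := List.append_of_mem hmem
  rw [hm, lm_cons M e Letter.lam]
  have e1 : hw (s1 ++ ((a, some q), g) :: s2) = hw s1 ++ ([Letter.h ((a, some q), g)] ++ hw s2) := by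
    simp [hw]
  rw [e1, lm_append, lm_append, lm_rel M e (.halt hMa)]
  rw [(lm_zero M e _).1, (lm_zero M e _).2, (lm_zero M e _).2, (lm_zero M e _).2]

end

/-! ### The model for non-halting computations -/

section Model

variable (row : ℕ → List (Cell Γ Λ))

/-- suffixes of rows -/
def Suff (s : List (Cell Γ Λ)) : Prop := ∃ m, s <:+ row m

/-- the points at which the `λ`-edges start -/
def Lp : ℕ → List (Cell Γ Λ) ⊕ ℕ
  | 0 => .inl []
  | m + 1 => .inr m

theorem Lp_inj {m k : ℕ} (h : (Lp m : List (Cell Γ Λ) ⊕ ℕ) = Lp k) : m = k := by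
  cases m <;> cases k <;> simp_all [Lp]

/-- the steps in the model -/
inductive stepE : Letter (Cell Γ Λ) → (List (Cell Γ Λ) ⊕ ℕ) → (List (Cell Γ Λ) ⊕ ℕ) → Prop
  | h {c : Cell Γ Λ} {s : List (Cell Γ Λ)} : Suff row (c :: s) →
      stepE (.h c) (.inl (c :: s)) (.inl s)
  | lam (m : ℕ) : stepE .lam (Lp m) (.inl (row m))
  | U (m : ℕ) : stepE .U (Lp m) (Lp (m + 1))
  | V {v : Cell Γ Λ} {s s' : List (Cell Γ Λ)} : Suff row s → Sweep M bl s v s' →
      stepE (.V v) (.inl s) (.inl s')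

variable {M} {row}

theorem stepE_h {c : Cell Γ Λ} {p q : List (Cell Γ Λ) ⊕ ℕ} :
    stepE M row (.h c) p q ↔ ∃ s, Suff row (c :: s) ∧ p = .inl (c :: s) ∧ q = .inl s := by
  constructor
  · rintro ⟨⟩; exact ⟨_, ‹_›, rfl, rfl⟩
  · rintro ⟨s, h, rfl, rfl⟩; exact .h h

theorem stepE_lam {p q : List (Cell Γ Λ) ⊕ ℕ} :
    stepE M row .lam p q ↔ ∃ m, p = Lp m ∧ q = .inl (row m) := by
  constructor
  · intro h
    generalize hp : p = p' at h
    generalize hq : q = q' at h
    cases h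
    exact ⟨_, rfl, rfl⟩
  · rintro ⟨m, rfl, rfl⟩; exact .lam m

theorem stepE_U {p q : List (Cell Γ Λ) ⊕ ℕ} :
    stepE M row .U p q ↔ ∃ m, p = Lp m ∧ q = Lp (m + 1) := by
  constructor
  · intro h
    generalize hp : p = p' at h
    generalize hq : q = q' at h
    cases h
    exact ⟨_, rfl, rfl⟩
  · rintro ⟨m, rfl, rfl⟩; exact .U m

theorem stepE_V {v : Cell Γ Λ} {p q : List (Cell Γ Λ) ⊕ ℕ} :
    stepE M row (.V v) p q ↔
      ∃ s s', Suff row s ∧ Sweep M bl s v s' ∧ p = .inl s ∧ q = .inl s' := by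
  constructor
  · rintro ⟨⟩; exact ⟨_, _, ‹_›, ‹_›, rfl, rfl⟩
  · rintro ⟨s, s', h1, h2, rfl, rfl⟩; exact .V h1 h2

theorem stepE_z {p q : List (Cell Γ Λ) ⊕ ℕ} : ¬ stepE M row .z p q := by
  intro h; cases h

/-- the hypotheses on the sequence of rows -/
structure RowSeq (M : TM0.Machine Γ Λ) (row : ℕ → List (Cell Γ Λ)) : Prop where
  next : ∀ m, Next M (row m) (row (m + 1))
  nohalt : ∀ m a q g, ((a, some q), g) ∈ row m → M q a ≠ none

theorem RowSeq.length (hr : RowSeq M row) (m : ℕ) : (row m).length = (row 0).length + 2 * m := by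
  induction m with
  | zero => simp
  | succ m ih => rw [(hr.next m).length, ih]; ring

theorem stepE_pi (hr : RowSeq M row) : IsPI (stepE M row) where
  right := by
    intro a p q q' h1 h2
    cases a with
    | h c =>
      obtain ⟨s, -, rfl, rfl⟩ := stepE_h.1 h1
      obtain ⟨s', -, h3, rfl⟩ := stepE_h.1 h2
      simp_all
    | V v =>
      obtain ⟨s, s', h3, h4, rfl, rfl⟩ := stepE_V.1 h1
      obtain ⟨t, t', h5, h6, h7, rfl⟩ := stepE_V.1 h2
      obtain rfl := Sum.inl.inj h7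
      rw [(h4.fn h6).2]
    | lam =>
      obtain ⟨m, rfl, rfl⟩ := stepE_lam.1 h1
      obtain ⟨k, h3, rfl⟩ := stepE_lam.1 h2
      rw [Lp_inj h3]
    | U =>
      obtain ⟨m, rfl, rfl⟩ := stepE_U.1 h1
      obtain ⟨k, h3, rfl⟩ := stepE_U.1 h2
      rw [Lp_inj h3]
    | z => exact absurd h1 stepE_z
  left := by
    intro a p p' q h1 h2
    cases a with
    | h c =>
      obtain ⟨s, -, rfl, rfl⟩ := stepE_h.1 h1
      obtain ⟨s', -, rfl, h3⟩ := stepE_h.1 h2
      simp_all
    | V v =>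
      obtain ⟨s, s', h3, h4, rfl, rfl⟩ := stepE_V.1 h1
      obtain ⟨t, t', h5, h6, rfl, h7⟩ := stepE_V.1 h2
      obtain rfl := Sum.inl.inj h7
      rw [(h4.inj h6).2]
    | lam =>
      obtain ⟨m, rfl, rfl⟩ := stepE_lam.1 h1
      obtain ⟨k, rfl, h3⟩ := stepE_lam.1 h2
      have := congrArg List.length (Sum.inl.inj h3)
      rw [hr.length m, hr.length k] at this
      have : m = k := by omega
      rw [this]
    | U =>
      obtain ⟨m, rfl, rfl⟩ := stepE_U.1 h1
      obtain ⟨k, rfl, h3⟩ := stepE_U.1 h2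
      have := Lp_inj h3
      have : m = k := by omega
      rw [this]
    | z => exact absurd h1 stepE_z

theorem suff_tail {c : Cell Γ Λ} {s : List (Cell Γ Λ)} (h : Suff row (c :: s)) : Suff row s := by
  obtain ⟨m, hm⟩ := h
  exact ⟨m, (List.suffix_cons c s).trans hm⟩

theorem suff_sweep (hr : RowSeq M row) {v : Cell Γ Λ} {s s' : List (Cell Γ Λ)}
    (h : Suff row s) (hs : Sweep M bl s v s') : Suff row s' := by
  obtain ⟨m, t, ht⟩ := h
  obtain ⟨τ, s'', h1, h2⟩ := hr.next m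
  rw [← ht] at h1
  obtain ⟨v₁, a, b, k1, k2, rfl⟩ := h1.split
  obtain ⟨rfl, rfl⟩ := hs.fn k1
  exact ⟨m + 1, bl :: τ :: a, by rw [h2]; simp⟩

theorem stepE_rel (hr : RowSeq M row) {u v : List (Letter (Cell Γ Λ))} (h : Rel0 M u v)
    (p q : List (Cell Γ Λ) ⊕ ℕ) :
    actR (stepE M row) (pos u) p q ↔ actR (stepE M row) (pos v) p q := by
  cases h with
  | @gate c v v' c' hg =>
    simp only [pos_cons, pos_nil, actR]
    constructor
    · rintro ⟨p₁, h1, p₂, h2, rfl⟩
      obtain ⟨s, hs, rfl, rfl⟩ := stepE_h.1 h1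
      obtain ⟨t, s', -, h4, h5, rfl⟩ := stepE_V.1 h2
      obtain rfl := Sum.inl.inj h5
      have hsw : Sweep M bl (c :: s) v' (c' :: s') := Sweep.cons h4 hg
      exact ⟨.inl (c' :: s'), .V hs hsw, _, .h (suff_sweep hr hs hsw), rfl⟩
    · rintro ⟨p₁, h1, p₂, h2, rfl⟩
      obtain ⟨t, t', ht, h4, rfl, rfl⟩ := stepE_V.1 h1
      obtain ⟨s', hs', h5, rfl⟩ := stepE_h.1 h2
      obtain rfl := Sum.inl.inj h5
      cases h4 with
      | cons k1 k2 =>
        obtain ⟨rfl, rfl⟩ := hg.inj k2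
        exact ⟨_, .h ht, _, .V (suff_tail ht) k1, rfl⟩
  | turn v =>
    simp only [pos_cons, pos_nil, actR]
    constructor
    · rintro ⟨p₁, h1, p₂, h2, rfl⟩
      obtain ⟨m, rfl, rfl⟩ := stepE_lam.1 h1
      obtain ⟨s, s', h3, h4, h5, rfl⟩ := stepE_V.1 h2
      obtain rfl := Sum.inl.inj h5
      obtain ⟨τ, s'', k1, k2⟩ := hr.next m
      obtain ⟨rfl, rfl⟩ := h4.fn k1
      have hs1 : Suff row (bl :: v :: s') := ⟨m + 1, by rw [k2]⟩
      refine ⟨_, .U m, _, .lam (m + 1), _, ?_, _, .h (suff_tail hs1), rfl⟩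
      rw [k2]
      exact .h hs1
    · rintro ⟨p₁, h1, p₂, h2, p₃, h3, p₄, h4, rfl⟩
      obtain ⟨m, rfl, rfl⟩ := stepE_U.1 h1
      obtain ⟨k, h5, rfl⟩ := stepE_lam.1 h2
      obtain rfl := Lp_inj h5
      obtain ⟨s, hs, h6, rfl⟩ := stepE_h.1 h3
      obtain ⟨s', hs', h7, rfl⟩ := stepE_h.1 h4
      obtain ⟨τ, s'', k1, k2⟩ := hr.next m
      rw [k2] at h6
      have h6' := Sum.inl.inj h6
      obtain rfl := Sum.inl.inj h7
      simp only [List.cons.injEq, true_and] at h6'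
      obtain ⟨rfl, rfl⟩ := h6'
      exact ⟨_, .lam m, _, .V ⟨m, List.suffix_refl _⟩ k1, rfl⟩
  | zl a =>
    simp only [pos_cons, pos_nil, actR]
    constructor
    · rintro ⟨p₁, h1, -⟩; exact absurd h1 stepE_z
    · rintro ⟨p₁, h1, -⟩; exact absurd h1 stepE_z
  | zr a =>
    simp only [pos_cons, pos_nil, actR]
    constructor
    · rintro ⟨p₁, h1, p₂, h2, -⟩; exact absurd h2 stepE_z
    · rintro ⟨p₁, h1, -⟩; exact absurd h1 stepE_z
  | @halt a s g hM =>
    simp only [pos_cons, pos_nil, actR]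
    constructor
    · rintro ⟨p₁, h1, -⟩
      obtain ⟨s, ⟨m, hm⟩, -, -⟩ := stepE_h.1 h1
      exact absurd hM (hr.nohalt m _ _ g (hm.subset (by simp)))
    · rintro ⟨p₁, h1, -⟩; exact absurd h1 stepE_z

theorem actR_map {α β P : Type} (e : α ≃ β) (step : α → P → P → Prop) (u : List α) (p q : P) :
    actR (fun b => step (e.symm b)) (pos (u.map e)) p q ↔ actR step (pos u) p q := by
  induction u generalizing p with
  | nil => rfl
  | cons a u ih =>
    simp only [List.map_cons, pos_cons, actR, Equiv.symm_apply_apply, ih]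

theorem actR_hw (s : List (Cell Γ Λ)) (hs : Suff row s) :
    actR (stepE M row) (pos (hw s)) (.inl s) (.inl []) := by
  induction s with
  | nil => rfl
  | cons c s ih => exact ⟨_, .h hs, ih (suff_tail hs)⟩

variable [Finite Γ] [Finite Λ]

/-- In the non-halting case there is a closed inverse submonoid containing `x` and `r`
but not the zero. -/
theorem nohalt_submonoid (hr : RowSeq M row) :
    ∃ H : Submonoid (InvMon (RList M e)), (∀ h ∈ H, h⁻¹ ∈ H) ∧
      (∀ h ∈ H, ∀ m, natLE h m → m ∈ H) ∧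
      lm M e (.lam :: hw (row 0)) ∈ H ∧ lm M e [.V bl] ∈ H ∧ lm M e [.z] ∉ H := by
  let st : Fin n → (List (Cell Γ Λ) ⊕ ℕ) → (List (Cell Γ Λ) ⊕ ℕ) → Prop :=
    fun b => stepE M row (e.symm b)
  have hpi : IsPI st := ⟨fun a => (stepE_pi hr).right _, fun a => (stepE_pi hr).left _⟩
  have hrel : ∀ l r, (l, r) ∈ RList M e → ∀ p q, actR st l p q ↔ actR st r p q := by
    intro l r hlr p q
    obtain ⟨u, v, huv, rfl, rfl⟩ := (mem_RList M e).1 hlr
    rw [actR_map e (stepE M row), actR_map e (stepE M row)]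
    exact stepE_rel hr huv p q
  have hact : ∀ {u v : Word (Fin n)}, mk (RList M e) u = mk (RList M e) v → ∀ p q,
      actR st u p q ↔ actR st v p q := fun h => act_of_eqv hpi hrel (mk_eq.1 h)
  let E : List (Cell Γ Λ) ⊕ ℕ := .inl []
  let H : Submonoid (InvMon (RList M e)) :=
    { carrier := {m | ∃ w, mk (RList M e) w = m ∧ actR st w E E}
      one_mem' := ⟨[], rfl, rfl⟩
      mul_mem' := by
        rintro _ _ ⟨u, rfl, hu⟩ ⟨v, rfl, hv⟩
        exact ⟨u ++ v, rfl, (actR_append _ _ _ _).2 ⟨E, hu, hv⟩⟩ }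
  have hH : ∀ w, mk (RList M e) w ∈ H ↔ actR st w E E := by
    intro w
    constructor
    · rintro ⟨u, hu, h⟩; exact (hact hu _ _).1 h
    · intro h; exact ⟨w, rfl, h⟩
  refine ⟨H, ?_, ?_, ?_, ?_, ?_⟩
  · rintro _ ⟨u, rfl, hu⟩
    rw [mk_inv, hH, actR_winv]; exact hu
  · rintro _ ⟨u, rfl, hu⟩ m ⟨f, hf, hm⟩
    induction m using InvMon.ind with
    | h v =>
      induction f using InvMon.ind with
      | h w =>
        rw [mk_mul] at hm hf
        rw [hH]
        obtain ⟨p, h1, h2⟩ := (actR_append _ _ _ _).1 ((hact hm _ _).1 hu)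
        obtain ⟨p', h3, h4⟩ := (actR_append _ _ _ _).1 ((hact hf _ _).2 h1)
        obtain rfl := hpi.right_word w _ _ _ h1 h3
        obtain h5 := hpi.left_word w _ _ _ h1 h4
        rw [← h5] at h2
        exact h2
  · change mk (RList M e) _ ∈ H
    rw [hH, actR_map e (stepE M row)]
    exact ⟨_, .lam 0, actR_hw _ ⟨0, List.suffix_refl _⟩⟩
  · change mk (RList M e) _ ∈ H
    rw [hH, actR_map e (stepE M row)]
    exact ⟨_, .V ⟨0, List.nil_suffix⟩ (Sweep.nil _), rfl⟩
  · change mk (RList M e) _ ∉ H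
    rw [hH, actR_map e (stepE M row)]
    rintro ⟨p, hp, -⟩
    exact stepE_z hp

end Model

/-- existence of the sequence of rows in the non-halting case -/
theorem exists_rows {cfg₀ : TM0.Cfg Γ Λ} {s₀ : List (Cell Γ Λ)} (h0 : Repr s₀ cfg₀)
    (h : ¬ (StateTransition.eval (TM0.step M) cfg₀).Dom) :
    ∃ row : ℕ → List (Cell Γ Λ), row 0 = s₀ ∧ RowSeq M row := by
  have hne : ∀ cfg, StateTransition.Reaches (TM0.step M) cfg₀ cfg → TM0.step M cfg ≠ none := by
    intro cfg hcfg hn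
    exact h (Part.dom_iff_mem.2 ⟨cfg, StateTransition.mem_eval.2 ⟨hcfg, hn⟩⟩)
  let Good : List (Cell Γ Λ) → Prop := fun s =>
    ∃ cfg, Repr s cfg ∧ StateTransition.Reaches (TM0.step M) cfg₀ cfg
  have hstep : ∀ s : {s // Good s}, ∃ t : {s // Good s}, Next M s.1 t.1 := by
    rintro ⟨s, cfg, hs, hcfg⟩
    obtain ⟨cfg', hcfg'⟩ := Option.ne_none_iff_exists'.1 (hne cfg hcfg)
    obtain ⟨t, ht, htr⟩ := hs.step (M := M) hcfg'
    exact ⟨⟨t, cfg', htr, hcfg.tail hcfg'⟩, ht⟩
  choose F hF using hstep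
  refine ⟨fun m => (F^[m] ⟨s₀, cfg₀, h0, .refl⟩).1, rfl, ?_, ?_⟩
  · intro m
    rw [Function.iterate_succ_apply']
    exact hF _
  · intro m a q g hm
    obtain ⟨cfg, hs, hcfg⟩ := (F^[m] ⟨s₀, cfg₀, h0, .refl⟩).2
    exact hs.no_halt (M := M) (hne cfg hcfg) hm

end

end H71TL
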